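import Mathlib
import Pool.Agent.Run7.h371.Torsion

/-!
# The abelianisation of `SL(2, ℤ)`
-/

set_option autoImplicit false

namespace Run7.h371.G

open Run7.h371

/-- The numerator. -/
def chiZ (p q r s : ℤ) : ℤ := (1 - r ^ 2) * (q * s + 3 * (r - 1) * s + r + 3) + r * (p + s - 3)

/-- The character of order twelve. -/
def chi (g : SL2) : ZMod 12 := (chiZ (g.1 0 0) (g.1 0 1) (g.1 1 0) (g.1 1 1) : ZMod 12)

theorem zmod12 (u : ℤ) (h3 : (u : ZMod 3) = 0) (h4 : (u : ZMod 4) = 0) : (u : ZMod 12) = 0 := by
  rw [ZMod.intCast_zmod_eq_zero_iff_dvd] at *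
  omega

theorem step_a3 : ∀ p q r s : ZMod 3, p * s - q * r = 1 →
    ((1 - r ^ 2) * ((p + q) * (r + s) + 3 * (r - 1) * (r + s) + r + 3) + r * (p + (r + s) - 3)) -
    ((1 - r ^ 2) * (q * s + 3 * (r - 1) * s + r + 3) + r * (p + s - 3)) - 1 = 0 := by decide

theorem step_a4 : ∀ p q r s : ZMod 4, p * s - q * r = 1 →
    ((1 - r ^ 2) * ((p + q) * (r + s) + 3 * (r - 1) * (r + s) + r + 3) + r * (p + (r + s) - 3)) -
    ((1 - r ^ 2) * (q * s + 3 * (r - 1) * s + r + 3) + r * (p + s - 3)) - 1 = 0 := by decide

theorem step_b3 : ∀ p q r s : ZMod 3, p * s - q * r = 1 →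
    ((1 - (r - s) ^ 2) * (q * s + 3 * ((r - s) - 1) * s + (r - s) + 3) +
      (r - s) * ((p - q) + s - 3)) -
    ((1 - r ^ 2) * (q * s + 3 * (r - 1) * s + r + 3) + r * (p + s - 3)) - 1 = 0 := by decide

theorem step_b4 : ∀ p q r s : ZMod 4, p * s - q * r = 1 →
    ((1 - (r - s) ^ 2) * (q * s + 3 * ((r - s) - 1) * s + (r - s) + 3) +
      (r - s) * ((p - q) + s - 3)) -
    ((1 - r ^ 2) * (q * s + 3 * (r - 1) * s + r + 3) + r * (p + s - 3)) - 1 = 0 := by decide

theorem mul_a_val (g : SL2) : (g * a).1 = !![g.1 0 0, g.1 0 0 + g.1 0 1; g.1 1 0,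
    g.1 1 0 + g.1 1 1] := by
  have h1 : (g * a).1 = g.1 * a.1 := rfl
  have h2 : g.1 = !![g.1 0 0, g.1 0 1; g.1 1 0, g.1 1 1] := Matrix.eta_fin_two g.1
  rw [h1, a_val]
  conv_lhs => rw [h2, Matrix.mul_fin_two]
  ext i j
  fin_cases i <;> fin_cases j <;> simp

theorem mul_b_val (g : SL2) : (g * b).1 = !![g.1 0 0 - g.1 0 1, g.1 0 1; g.1 1 0 - g.1 1 1,
    g.1 1 1] := by
  have h1 : (g * b).1 = g.1 * b.1 := rfl
  have h2 : g.1 = !![g.1 0 0, g.1 0 1; g.1 1 0, g.1 1 1] := Matrix.eta_fin_two g.1
  rw [h1, b_val]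
  conv_lhs => rw [h2, Matrix.mul_fin_two]
  ext i j
  fin_cases i <;> fin_cases j <;> simp <;> ring

theorem chi_mul_a (g : SL2) : chi (g * a) = chi g + 1 := by
  have hdet := g.det_coe
  rw [Matrix.det_fin_two] at hdet
  unfold chi
  rw [mul_a_val]
  simp only [Matrix.of_apply, Matrix.cons_val', Matrix.cons_val_zero, Matrix.cons_val_one,
    Matrix.cons_val_fin_one]
  set p := g.1 0 0
  set q := g.1 0 1
  set r := g.1 1 0
  set s := g.1 1 1
  have key : ((chiZ p (p + q) r (r + s) - chiZ p q r s - 1 : ℤ) : ZMod 12) = 0 := by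
    apply zmod12
    · have hd : (p : ZMod 3) * s - q * r = 1 := by
        have := congrArg (fun z : ℤ => (z : ZMod 3)) hdet
        simpa using this
      have := step_a3 p q r s hd
      unfold chiZ
      push_cast
      exact this
    · have hd : (p : ZMod 4) * s - q * r = 1 := by
        have := congrArg (fun z : ℤ => (z : ZMod 4)) hdet
        simpa using this
      have := step_a4 p q r s hd
      unfold chiZ
      push_cast
      exact this
  push_cast at key
  rw [← sub_eq_zero, ← key]
  ring

theorem chi_mul_b (g : SL2) : chi (g * b) = chi g + 1 := by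
  have hdet := g.det_coe
  rw [Matrix.det_fin_two] at hdet
  unfold chi
  rw [mul_b_val]
  simp only [Matrix.of_apply, Matrix.cons_val', Matrix.cons_val_zero, Matrix.cons_val_one,
    Matrix.cons_val_fin_one]
  set p := g.1 0 0
  set q := g.1 0 1
  set r := g.1 1 0
  set s := g.1 1 1
  have key : ((chiZ (p - q) q (r - s) s - chiZ p q r s - 1 : ℤ) : ZMod 12) = 0 := by
    apply zmod12
    · have hd : (p : ZMod 3) * s - q * r = 1 := by
        have := congrArg (fun z : ℤ => (z : ZMod 3)) hdet
        simpa using this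
      have := step_b3 p q r s hd
      unfold chiZ
      push_cast
      exact this
    · have hd : (p : ZMod 4) * s - q * r = 1 := by
        have := congrArg (fun z : ℤ => (z : ZMod 4)) hdet
        simpa using this
      have := step_b4 p q r s hd
      unfold chiZ
      push_cast
      exact this
  push_cast at key
  rw [← sub_eq_zero, ← key]
  ring

theorem gen_ab (g : SL2) : g ∈ Subgroup.closure ({a, b} : Set SL2) := by
  have h : g ∈ Subgroup.closure ({ModularGroup.S, ModularGroup.T} : Set SL2) := by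
    rw [SpecialLinearGroup.SL2Z_generators]; trivial
  have ha : a ∈ Subgroup.closure ({a, b} : Set SL2) := Subgroup.subset_closure (by simp)
  have hb : b ∈ Subgroup.closure ({a, b} : Set SL2) := Subgroup.subset_closure (by simp)
  refine (Subgroup.closure_le _).2 ?_ h
  rintro u (rfl | rfl)
  · have : ModularGroup.S = (a * b * a)⁻¹ := by
      apply Subtype.ext; decide
    rw [SetLike.mem_coe, this]
    exact inv_mem (mul_mem (mul_mem ha hb) ha)
  · exact ha

theorem chi_mul (g h : SL2) : chi (g * h) = chi g + chi h := by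
  have chi1 : chi 1 = 0 := by decide
  have hh := gen_ab h
  have key : ∀ g, chi (g * h) = chi g + chi h := by
    induction hh using Subgroup.closure_induction_right with
    | one => intro g; rw [mul_one, chi1, add_zero]
    | mul_right u _ v hv ih =>
      intro g
      rcases hv with rfl | rfl
      · rw [← mul_assoc, chi_mul_a, chi_mul_a, ih, add_assoc]
      · rw [← mul_assoc, chi_mul_b, chi_mul_b, ih, add_assoc]
    | mul_inv_cancel u _ v hv ih =>
      intro g
      rcases hv with rfl | rfl
      · have h1 := chi_mul_a (g * (u * a⁻¹))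
        have h2 := chi_mul_a (u * a⁻¹)
        have e1 : g * (u * a⁻¹) * a = g * u := by group
        have e2 : u * a⁻¹ * a = u := by group
        rw [e1, ih] at h1
        rw [e2] at h2
        have h3 : chi (g * (u * a⁻¹)) = chi g + chi u - 1 := by rw [h1]; ring
        rw [h3, h2]; ring
      · have h1 := chi_mul_b (g * (u * b⁻¹))
        have h2 := chi_mul_b (u * b⁻¹)
        have e1 : g * (u * b⁻¹) * b = g * u := by group
        have e2 : u * b⁻¹ * b = u := by group
        rw [e1, ih] at h1
        rw [e2] at h2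
        have h3 : chi (g * (u * b⁻¹)) = chi g + chi u - 1 := by rw [h1]; ring
        rw [h3, h2]; ring
  exact key g

theorem chi_one : chi 1 = 0 := by decide

theorem chi_inv (g : SL2) : chi g⁻¹ = -chi g := by
  have := chi_mul g g⁻¹
  rw [mul_inv_cancel, chi_one] at this
  exact (neg_eq_of_add_eq_zero_right this.symm).symm

theorem chi_conj (g h : SL2) : chi (g * h * g⁻¹) = chi h := by
  rw [chi_mul, chi_mul, chi_inv]; ring

theorem chi_pow (g : SL2) (n : ℕ) : chi (g ^ n) = n * chi g := by
  induction n with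
  | zero => simp [chi_one]
  | succ n ih => rw [pow_succ, chi_mul, ih]; push_cast; ring

theorem chi_isConj {g h : SL2} (hc : IsConj g h) : chi g = chi h := by
  obtain ⟨u, rfl⟩ := isConj_iff.1 hc
  rw [chi_conj]

theorem chi_a : chi a = 1 := by decide
theorem chi_y : chi y = 2 := by decide
theorem chi_x : chi x = 3 := by decide
theorem chi_neg_one : chi (-1) = 6 := by decide

theorem chi_neg (g : SL2) : chi (-g) = chi g + 6 := by
  have : -g = g * (-1) := by simp
  rw [this, chi_mul, chi_neg_one]

theorem chi_prod (t : List SL2) (ht : ∀ g ∈ t, ∃ h : SL2, g = h * a * h⁻¹) :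
    chi t.prod = t.length := by
  induction t with
  | nil => simp [chi_one]
  | cons g t ih =>
    obtain ⟨h, rfl⟩ := ht g (by simp)
    rw [List.prod_cons, chi_mul, chi_conj, chi_a, ih (fun g hg => ht g (by simp [hg]))]
    simp [add_comm]

end Run7.h371.G
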