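import Mathlib
import Pool.Agent.Run7.h371.G.Reduce

/-!
# Normal forms of lists of blocks, general labels
-/

set_option autoImplicit false

namespace Run7.h371.G

open Run7.h371

theorem Yp_two : Yp 2 = Y * Y := by
  have : (2 : ZMod 3) = 1 + 1 := by decide
  rw [this, Yp_add, Yp_one]

theorem Y_apply (g : SL2) : Y g = y * g * y⁻¹ := rfl

theorem V_inner (l : List (ZMod 3)) (c : ZMod 3) : ∃ g, V l c = cj g := by
  have hY : ∀ c, ∃ g, Yp c = cj g := fun c => ⟨y ^ c.val, by rw [map_pow]; rfl⟩
  induction l with
  | nil => rw [V_nil]; exact hY c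
  | cons d l ih =>
    obtain ⟨g, hg⟩ := ih
    obtain ⟨h, hh⟩ := hY d
    refine ⟨h * x * g, ?_⟩
    rw [V_cons, hg, hh, map_mul, map_mul]; rfl

/-- The types of special entries which are not of vertex type. -/
inductive Ty
  | E (e : Bool)
  | D (e : Bool)

/-- The representative of a type. -/
def Ty.val : Ty → SL2
  | .E true => x
  | .E false => x⁻¹
  | .D true => a
  | .D false => -a

/-- Whether the type is parabolic. -/
def Ty.isD : Ty → Bool
  | .E _ => false
  | .D _ => true

/-- The models that are used. -/
def md (τ₀ τ₁ : Ty) : Model where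
  M := fun
    | .nod => a
    | .zero => τ₀.val
    | .inf => τ₁.val
  D := fun
    | .nod => true
    | .zero => τ₀.isD
    | .inf => τ₁.isD
  hD := by
    intro l
    cases l
    · simp
    · rcases τ₀ with (_ | _) | (_ | _) <;> simp [Ty.val, Ty.isD]
    · rcases τ₁ with (_ | _) | (_ | _) <;> simp [Ty.val, Ty.isD]
  hE := by
    intro l
    cases l
    · simp
    · rcases τ₀ with (_ | _) | (_ | _) <;> simp [Ty.val, Ty.isD]
    · rcases τ₁ with (_ | _) | (_ | _) <;> simp [Ty.val, Ty.isD]

section

variable (m : Model)

/-- The entry with label `s` in position `c` at the base. -/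
def B (s : Lab) (c : ZMod 3) : Lab × SL2 := (s, Yp c (m.M s))

theorem ev_nil (s : Lab) (c : ZMod 3) : m.ev ⟨s, [], c⟩ = B m s c := by
  unfold Model.ev B; simp only [V_nil]

/-- The third braid move: the conjugation relation between neighbours. -/
theorem swap_step {s t : Lab} (hs : m.D s = true) (ht : m.D t = true) (c : ZMod 3) :
    Hur [B m s c, B m t (c + 1)] [B m t (c + 1), B m s (c + 1 + 1)] := by
  refine (Hur.swapR _ _ _).trans (Hur.of_eq ?_)
  have : ((B m t (c + 1)).2⁻¹ * (B m s c).2 * (B m t (c + 1)).2) = (B m s (c + 1 + 1)).2 := by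
    unfold B
    simp only
    rw [Yp_add (c + 1), Yp_add c, Yp_one]
    simp only [MulAut.mul_apply]
    rw [← map_inv, ← map_mul, ← map_mul]
    congr 1
    simp only [Y_apply]
    rcases m.hD s hs with h | h <;> rcases m.hD t ht with h' | h' <;> rw [h, h'] <;> decide
  rw [this]; rfl

theorem z0 : (0 : ZMod 3) + 1 = 1 := by decide
theorem z1 : (1 : ZMod 3) + 1 = 2 := by decide
theorem z2 : (2 : ZMod 3) + 1 = 0 := by decide

/-- The labels of a block of two parabolic entries can be exchanged. -/
theorem swap_lab {s t : Lab} (hs : m.D s = true) (ht : m.D t = true) (c : ZMod 3) :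
    Hur [B m s c, B m t (c + 1)] [B m t c, B m s (c + 1)] := by
  have h1 := swap_step m hs ht c
  have h2 := swap_step m ht hs (c + 1)
  have h3 := swap_step m hs ht (c + 1 + 1)
  have e : c + 1 + 1 + 1 = c := by
    have : ∀ c : ZMod 3, c + 1 + 1 + 1 = c := by decide
    exact this c
  rw [e] at h2 h3
  exact (h1.trans h2).trans h3

/-- Blocks of two parabolic entries can be rotated. -/
theorem dd_norm {s t : Lab} (hs : m.D s = true) (ht : m.D t = true) (c : ZMod 3) :
    Hur [B m s c, B m t (c + 1)] [B m s 0, B m t 1] := by
  have h : ∀ c, Hur [B m s c, B m t (c + 1)] [B m s (c + 1), B m t (c + 1 + 1)] := fun c =>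
    (swap_lab m hs ht c).trans (swap_step m ht hs c)
  have h1 := h 1
  have h2 := h 2
  rw [z2, z0] at h2
  rw [z1, z2] at h1
  have hc : c = 0 ∨ c = 1 ∨ c = 2 := by revert c; decide
  rcases hc with rfl | rfl | rfl
  · rw [z0]; exact Hur.refl _
  · rw [z1]; exact h1.trans h2
  · rw [z2]; exact h2

/-- The other adjacency. -/
theorem swap_lab' {s t : Lab} (hs : m.D s = true) (ht : m.D t = true) :
    Hur [B m s 1, B m t 0] [B m t 1, B m s 0] := by
  -- three exchanges
  have e1 : ((B m t 0).2⁻¹ * (B m s 1).2 * (B m t 0).2) =
      a⁻¹ * (B m s 1).2 * a := by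
    unfold B
    simp only [Yp_zero, MulAut.one_apply]
    rcases m.hD t ht with h | h <;> rw [h] <;> simp
  have h1 := Hur.swapR (B m s 1) (B m t 0) []
  rw [e1] at h1
  have h2 := Hur.swapR (B m t 0) ((B m s 1).1, a⁻¹ * (B m s 1).2 * a) []
  have e2 : (((B m s 1).1, a⁻¹ * (B m s 1).2 * a) : Lab × SL2).2⁻¹ * (B m t 0).2 *
      (((B m s 1).1, a⁻¹ * (B m s 1).2 * a) : Lab × SL2).2 = (B m t 1).2 := by
    unfold B
    simp only [Yp_zero, Yp_one, MulAut.one_apply, Y_apply]
    rcases m.hD s hs with h | h <;> rcases m.hD t ht with h' | h' <;> rw [h, h'] <;> decide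
  rw [e2] at h2
  have h3 := Hur.swapR ((B m s 1).1, a⁻¹ * (B m s 1).2 * a) ((B m t 0).1, (B m t 1).2) []
  have e3 : (((B m t 0).1, (B m t 1).2) : Lab × SL2).2⁻¹ *
      (((B m s 1).1, a⁻¹ * (B m s 1).2 * a) : Lab × SL2).2 *
      (((B m t 0).1, (B m t 1).2) : Lab × SL2).2 = (B m s 0).2 := by
    unfold B
    simp only [Yp_zero, Yp_one, MulAut.one_apply, Y_apply]
    rcases m.hD s hs with h | h <;> rcases m.hD t ht with h' | h' <;> rw [h, h'] <;> decide
  rw [e3] at h3
  exact (h1.trans h2).trans h3

/-- Alternating lists. -/
def alt : Bool → List Lab → List (Lab × SL2)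
  | _, [] => []
  | false, s :: L => B m s 0 :: alt true L
  | true, s :: L => B m s 1 :: alt false L

@[simp] theorem alt_nil (b : Bool) : alt m b [] = [] := by cases b <;> rfl
@[simp] theorem alt_false (s : Lab) (L : List Lab) : alt m false (s :: L) = B m s 0 :: alt m true L :=
  rfl
@[simp] theorem alt_true (s : Lab) (L : List Lab) : alt m true (s :: L) = B m s 1 :: alt m false L :=
  rfl

theorem length_alt (b : Bool) (L : List Lab) : (alt m b L).length = L.length := by
  induction L generalizing b with
  | nil => simp
  | cons s L ih => cases b <;> simp [ih]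

theorem alt_perm {L L' : List Lab} (h : L.Perm L') (hD : ∀ s ∈ L, m.D s = true) (b : Bool) :
    Hur (alt m b L) (alt m b L') := by
  induction h generalizing b with
  | nil => exact Hur.refl _
  | @cons s L L' _ ih =>
    cases b
    · exact Hur.cons _ (ih (fun t ht => hD t (List.mem_cons_of_mem _ ht)) true)
    · exact Hur.cons _ (ih (fun t ht => hD t (List.mem_cons_of_mem _ ht)) false)
  | swap s t L =>
    have hs := hD s (by simp)
    have ht := hD t (by simp)
    cases b
    · have := (swap_lab m ht hs 0).right (alt m false L)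
      rw [z0] at this
      simpa using this
    · have := (swap_lab' m ht hs).right (alt m true L)
      simpa using this
  | trans h1 _ ih1 ih2 =>
    exact (ih1 hD b).trans (ih2 (fun s hs => hD s (h1.mem_iff.2 hs)) b)

/-- From ordinary-special to special-ordinary. -/
theorem de_ed {s t : Lab} (hs : m.D s = false) (ht : m.D t = true) (c : ZMod 3) :
    Hur [B m t c, B m s c] [B m s c, B m t (c + 1)] := by
  refine (Hur.swapR _ _ _).trans (Hur.of_eq ?_)
  have : ((B m s c).2⁻¹ * (B m t c).2 * (B m s c).2) = (B m t (c + 1)).2 := by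
    unfold B
    simp only
    rw [Yp_add, Yp_one, MulAut.mul_apply, ← map_inv, ← map_mul, ← map_mul]
    congr 1
    simp only [Y_apply]
    rcases m.hE s hs with h | h <;> rcases m.hD t ht with h' | h' <;> rw [h, h'] <;> decide
  rw [this]; rfl

/-- From special-ordinary to ordinary-special. -/
theorem ed_de {s t : Lab} (hs : m.D s = false) (ht : m.D t = true) (c : ZMod 3) :
    Hur [B m s c, B m t (c + 1)] [B m t (c + 1), B m s (c + 1)] := by
  refine (Hur.swapR _ _ _).trans (Hur.of_eq ?_)
  have : ((B m t (c + 1)).2⁻¹ * (B m s c).2 * (B m t (c + 1)).2) = (B m s (c + 1)).2 := by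
    unfold B
    simp only
    rw [Yp_add, Yp_one, MulAut.mul_apply, MulAut.mul_apply, ← map_inv, ← map_mul, ← map_mul]
    congr 1
    simp only [Y_apply]
    rcases m.hE s hs with h | h <;> rcases m.hD t ht with h' | h' <;> rw [h, h'] <;> decide
  rw [this]; rfl

theorem ed_norm {s t : Lab} (hs : m.D s = false) (ht : m.D t = true) (c : ZMod 3) :
    Hur [B m s c, B m t (c + 1)] [B m s 0, B m t 1] := by
  have h : ∀ c, Hur [B m s c, B m t (c + 1)] [B m s (c + 1), B m t (c + 1 + 1)] := fun c =>
    (ed_de m hs ht c).trans (de_ed m hs ht (c + 1))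
  have h1 := h 1
  have h2 := h 2
  rw [z2, z0] at h2
  rw [z1, z2] at h1
  have hc : c = 0 ∨ c = 1 ∨ c = 2 := by revert c; decide
  rcases hc with rfl | rfl | rfl
  · rw [z0]; exact Hur.refl _
  · rw [z1]; exact h1.trans h2
  · rw [z2]; exact h2

theorem de_norm {s t : Lab} (hs : m.D s = false) (ht : m.D t = true) (c : ZMod 3) :
    Hur [B m t c, B m s c] [B m s 0, B m t 1] :=
  (de_ed m hs ht c).trans (ed_norm m hs ht c)

/-- The rotation of the first block behind a special block. -/
theorem pass_ed {s w u v : Lab} (hs : m.D s = false) (hw : m.D w = true) (hu : m.D u = true)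
    (hv : m.D v = true) :
    Hur ([B m u 0, B m v 1] ++ [B m s 0, B m w 1]) ([B m s 0, B m w 1] ++ [B m u 0, B m v 1]) := by
  refine (Hur.exchR _ _).trans (Hur.left _ ?_)
  have hcj : cj (pr [B m s 0, B m w 1])⁻¹ = Yp 1 := by
    rw [map_inv]
    unfold B
    simp only [pr_cons, pr_nil, mul_one, Yp_zero, MulAut.one_apply]
    rw [map_mul, cj_aut, m.cj_M, m.cj_M, m.δ_false hs, m.δ_true hw, Yp_zero, one_mul, Yp_neg,
      Yp_one]
    have : (X * (Y * (Y⁻¹ * X) * Y⁻¹))⁻¹ = Y * (X * X)⁻¹ := by group
    rw [this, XX, inv_one, mul_one]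
  have hB : ∀ (r : Lab) (c : ZMod 3), ((B m r c).1, (pr [B m s 0, B m w 1])⁻¹ * (B m r c).2 *
      ((pr [B m s 0, B m w 1])⁻¹)⁻¹) = B m r (c + 1) := by
    intro r c
    have : (pr [B m s 0, B m w 1])⁻¹ * (B m r c).2 * ((pr [B m s 0, B m w 1])⁻¹)⁻¹ =
        cj (pr [B m s 0, B m w 1])⁻¹ (B m r c).2 := rfl
    rw [this, hcj]
    unfold B
    simp only
    rw [add_comm, Yp_add]; rfl
  have h2 : cL (pr [B m s 0, B m w 1])⁻¹ [B m u 0, B m v 1] = [B m u (0 + 1), B m v (1 + 1)] := by
    simp only [cL_cons, cL_nil, hB]
  rw [h2, z0]
  exact dd_norm m hu hv 1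

/-- Normal form without elliptic entries. -/
theorem norm_D {L : List Item} (h : m.BL L) (hD : ∀ p ∈ L, m.D p.lab = true) :
    Hur (L.map m.ev) (alt m false (L.map Item.lab)) := by
  induction h with
  | nil => exact Hur.refl _
  | @cons p q l hb _ ih =>
    have hp := hD p (by simp)
    have hq := hD q (by simp)
    have ih' := ih (fun r hr => hD r (by simp [hr]))
    obtain ⟨s, k, c⟩ := p
    obtain ⟨t, k', c'⟩ := q
    obtain ⟨h1, h2, h3⟩ := hb
    simp only at h1 h2 h3 hp hq
    subst h1
    rw [m.δ_true hq] at h2
    simp only [hp, hq, Bool.true_eq_false, and_false, or_false] at h3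
    subst h3
    have : c' = c + 1 := by rw [h2]; ring
    subst this
    simp only [List.map_cons, ev_nil, alt_false, alt_true]
    exact (dd_norm m hp hq c).append ih'

/-- Normal form with one elliptic entry. -/
theorem norm_E {L : List Item} (h : m.BL L) (s : Lab) (hs : m.D s = false)
    (hs1 : (L.map Item.lab).count s = 1) (hD : ∀ t, t ≠ s → t ∈ L.map Item.lab → m.D t = true) :
    ∃ R : List Lab, (s :: R).Perm (L.map Item.lab) ∧ (∀ t ∈ R, m.D t = true) ∧
      Hur (L.map m.ev) (B m s 0 :: alt m true R) := by
  induction h with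
  | nil => simp at hs1
  | @cons p q l hb hl ih =>
    obtain ⟨u, k, c⟩ := p
    obtain ⟨v, k', c'⟩ := q
    simp only [List.map_cons, List.count_cons] at hs1
    have hcount : ∀ t, t ≠ s → t ∈ l.map Item.lab → m.D t = true :=
      fun t h1 h2 => hD t h1 (by simp at h2 ⊢; tauto)
    obtain ⟨h1, h2, h3⟩ := hb
    simp only at h1 h2 h3
    subst h1
    by_cases hu : u = s
    · subst hu
      have hv : v ≠ u := by
        rintro rfl; simp at hs1
      have hvD : m.D v = true := hD v hv (by simp)
      have hl0 : (l.map Item.lab).count u = 0 := by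
        have : ((v == u) = true) = False := by simp [hv]
        simp [hv] at hs1
        simpa [List.count_eq_zero] using hs1
      have hlD : ∀ r ∈ l, m.D r.lab = true := by
        intro r hr
        apply hcount r.lab
        · intro h
          rw [List.count_eq_zero] at hl0
          exact hl0 (List.mem_map.2 ⟨r, hr, h⟩)
        · exact List.mem_map.2 ⟨r, hr, rfl⟩
      rw [m.δ_true hvD] at h2
      simp only [hvD, Bool.true_eq_false, and_false, or_false] at h3
      subst h3
      have : c' = c + 1 := by rw [h2]; ring
      subst this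
      refine ⟨v :: l.map Item.lab, by simp, ?_, ?_⟩
      · intro t ht
        rcases List.mem_cons.1 ht with rfl | ht
        · exact hvD
        · obtain ⟨r, hr, rfl⟩ := List.mem_map.1 ht
          exact hlD r hr
      · simp only [List.map_cons, ev_nil, alt_true]
        exact (ed_norm m hs hvD c).append (norm_D m hl hlD)
    · have huD : m.D u = true := hD u hu (by simp)
      by_cases hv : v = s
      · subst hv
        have hl0 : (l.map Item.lab).count v = 0 := by
          simp [hu] at hs1
          simpa [List.count_eq_zero] using hs1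
        have hlD : ∀ r ∈ l, m.D r.lab = true := by
          intro r hr
          apply hcount r.lab
          · intro h
            rw [List.count_eq_zero] at hl0
            exact hl0 (List.mem_map.2 ⟨r, hr, h⟩)
          · exact List.mem_map.2 ⟨r, hr, rfl⟩
        rw [m.δ_false hs, add_zero] at h2
        simp only [huD, Bool.true_eq_false, false_and, or_false] at h3
        subst h3 h2
        refine ⟨u :: l.map Item.lab, List.Perm.swap _ _ _, ?_, ?_⟩
        · intro t ht
          rcases List.mem_cons.1 ht with rfl | ht
          · exact huD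
          · obtain ⟨r, hr, rfl⟩ := List.mem_map.1 ht
            exact hlD r hr
        · simp only [List.map_cons, ev_nil, alt_true]
          exact (de_norm m hs huD c).append (norm_D m hl hlD)
      · have hvD : m.D v = true := hD v hv (by simp)
        simp [hu, hv] at hs1
        obtain ⟨R, hR, hRD, hH⟩ := ih hs1 hcount
        rw [m.δ_true hvD] at h2
        simp only [huD, hvD, Bool.true_eq_false, and_false, or_false] at h3
        subst h3
        have : c' = c + 1 := by rw [h2]; ring
        subst this
        -- R is nonempty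
        have hlen : Even l.length := by
          clear * - hl
          induction hl with
          | nil => simp
          | cons _ _ ih => simpa [Nat.even_add_one] using ih
        cases R with
        | nil =>
          exfalso
          have := hR.length_eq
          simp at this
          rw [← this] at hlen
          simp at hlen
        | cons w R =>
          refine ⟨w :: u :: v :: R, ?_, ?_, ?_⟩
          · have h5 : (u :: v :: s :: w :: R).Perm (u :: v :: l.map Item.lab) :=
              (hR.cons v).cons u
            refine List.Perm.trans ?_ h5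
            have h6 : ([s, w] ++ ([u, v] ++ R)).Perm ([u, v] ++ ([s, w] ++ R)) := by
              rw [← List.append_assoc, ← List.append_assoc]
              exact List.Perm.append_right _ List.perm_append_comm
            simpa using h6
          · intro t ht
            simp only [List.mem_cons] at ht
            rcases ht with rfl | rfl | rfl | ht
            · exact hRD _ (by simp)
            · exact huD
            · exact hvD
            · exact hRD _ (by simp [ht])
          · simp only [List.map_cons, ev_nil, alt_true, alt_false] at hH ⊢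
            refine ((dd_norm m huD hvD c).append hH).trans ?_
            have := (pass_ed m hs (hRD w (by simp)) huD hvD).right (alt m true R |>.map id)
            have h7 := (pass_ed m hs (hRD w (by simp)) huD hvD).right (alt m false R)
            simpa using h7

end

end Run7.h371.G
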