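import Mathlib
import Pool.Agent.Run7.h371.G.Normal
import Pool.Agent.Run7.h371.Main

/-!
# Tuples with two special entries, finite order or short parabolic
-/

set_option autoImplicit false

namespace Run7.h371.G

open Run7.h371

/-- A conjugate of the model element of a label has coordinates. -/
theorem item_of (m : Model) (s : Lab) (h : SL2) : ∃ p : Item, m.ev p = (s, h * m.M s * h⁻¹) := by
  obtain ⟨l, c, hlc⟩ := exists_V h
  refine ⟨⟨s, l, c⟩, ?_⟩
  unfold Model.ev
  simp only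
  rw [← hlc]; rfl

theorem items_of (m : Model) (L : List (Lab × SL2))
    (h : ∀ p ∈ L, ∃ g, p.2 = g * m.M p.1 * g⁻¹) : ∃ l : List Item, l.map m.ev = L := by
  induction L with
  | nil => exact ⟨[], rfl⟩
  | cons p L ih =>
    obtain ⟨l, hl⟩ := ih (fun q hq => h q (List.mem_cons_of_mem _ hq))
    obtain ⟨g, hg⟩ := h p (by simp)
    obtain ⟨q, hq⟩ := item_of m p.1 g
    refine ⟨q :: l, ?_⟩
    rw [List.map_cons, hq, hl, ← hg]

theorem labs_map (m : Model) (l : List Item) :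
    (l.map m.ev).map Prod.fst = l.map Item.lab := by
  rw [List.map_map]; rfl

/-- Lists with the same labels, whose products rotate about the base, are equivalent. -/
theorem hur_of_perm (m : Model) (L L' : List (Lab × SL2))
    (hL : ∀ p ∈ L, ∃ g, p.2 = g * m.M p.1 * g⁻¹) (hL' : ∀ p ∈ L', ∃ g, p.2 = g * m.M p.1 * g⁻¹)
    (hp : (L.map Prod.fst).Perm (L'.map Prod.fst)) {e e' : ZMod 3} (h : cj (pr L) = Yp e)
    (h' : cj (pr L') = Yp e')
    (hE : (∀ s ∈ L.map Prod.fst, m.D s = true) ∨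
      ∃ s, m.D s = false ∧ (L.map Prod.fst).count s = 1 ∧
        ∀ t, t ≠ s → t ∈ L.map Prod.fst → m.D t = true) : Hur L L' := by
  obtain ⟨l, rfl⟩ := items_of m L hL
  obtain ⟨l', rfl⟩ := items_of m L' hL'
  obtain ⟨K, hK, hH, -⟩ := m.all_blocks l h
  obtain ⟨K', hK', hH', -⟩ := m.all_blocks l' h'
  rw [labs_map, labs_map] at hp
  rw [labs_map] at hE
  have p1 : (l.map Item.lab).Perm (K.map Item.lab) := by
    rw [← labs_map m l, ← labs_map m K]; exact hH.perm
  have p2 : (l'.map Item.lab).Perm (K'.map Item.lab) := by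
    rw [← labs_map m l', ← labs_map m K']; exact hH'.perm
  rcases hE with hE | ⟨s, hs, hs1, hE⟩
  · have hKD : ∀ p ∈ K, m.D p.lab = true := fun p hp' =>
      hE _ (p1.mem_iff.2 (List.mem_map.2 ⟨p, hp', rfl⟩))
    have hKD' : ∀ p ∈ K', m.D p.lab = true := fun p hp' =>
      hE _ ((hp.trans p2).mem_iff.2 (List.mem_map.2 ⟨p, hp', rfl⟩))
    refine (hH.trans (norm_D m hK hKD)).trans ?_
    refine Hur.trans ?_ (hH'.trans (norm_D m hK' hKD')).symm
    apply alt_perm m ((p1.symm.trans hp).trans p2)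
    intro t ht
    exact hE t (p1.mem_iff.2 ht)
  · obtain ⟨R, hR, hRD, hHR⟩ := norm_E m hK s hs (by rw [← p1.count_eq]; exact hs1)
      (fun t h1 h2 => hE t h1 (p1.mem_iff.2 h2))
    obtain ⟨R', hR', hRD', hHR'⟩ := norm_E m hK' s hs
      (by rw [← (hp.trans p2).count_eq]; exact hs1)
      (fun t h1 h2 => hE t h1 ((hp.trans p2).mem_iff.2 h2))
    refine (hH.trans hHR).trans ?_
    refine Hur.trans ?_ (hH'.trans hHR').symm
    refine Hur.cons _ (alt_perm m ?_ hRD true)
    have : (s :: R).Perm (s :: R') :=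
      (hR.trans ((p1.symm.trans hp).trans p2)).trans hR'.symm
    exact this.cons_inv

/-- An element of vertex type. -/
def IsV (A : SL2) : Prop := ∃ (g : SL2) (i : ℕ), A = g * y ^ i * g⁻¹

/-- An element of a given other type. -/
def IsX (τ : Ty) (A : SL2) : Prop := ∃ g : SL2, A = g * τ.val * g⁻¹

theorem IsX.conj {τ : Ty} {A A' : SL2} (h : IsX τ A) (hc : IsConj A A') : IsX τ A' := by
  obtain ⟨u, hu⟩ := isConj_iff.1 hc
  obtain ⟨g, rfl⟩ := h
  exact ⟨u * g, by rw [← hu]; group⟩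

/-- The twists, conjugated. -/
theorem twist_conj {t : List SL2} (ht : ∀ g ∈ t, ∃ h : SL2, g = h * a * h⁻¹) (g : SL2) :
    ∀ u ∈ t.map (fun h => g * h * g⁻¹), ∃ h : SL2, u = h * a * h⁻¹ := by
  intro u hu
  obtain ⟨v, hv, rfl⟩ := List.mem_map.1 hu
  obtain ⟨w, rfl⟩ := ht v hv
  exact ⟨g * w, by group⟩

theorem fst_map (t : List SL2) :
    (t.map (fun g => ((Lab.nod, g) : Lab × SL2))).map Prod.fst = List.replicate t.length .nod := by
  rw [List.map_map]
  induction t with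
  | nil => rfl
  | cons g t ih => simp [List.replicate_succ]

/-- Vertex type and another type. -/
theorem unique_vx {A B A' B' : SL2} {t t' : List SL2} {τ : Ty}
    (hA : IsV A) (hB : IsX τ B) (hAA : IsConj A A') (hBB : IsConj B B')
    (ht : ∀ g ∈ t, ∃ h : SL2, g = h * a * h⁻¹) (ht' : ∀ g ∈ t', ∃ h : SL2, g = h * a * h⁻¹)
    (hl : t.length = t'.length) (h1 : A * t.prod * B = 1) (h1' : A' * t'.prod * B' = 1) :
    Eqv (tup A t B) (tup A' t' B') := by
  obtain ⟨g, i, rfl⟩ := hA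
  obtain ⟨u, rfl⟩ := isConj_iff.1 hAA
  have hB' := hB.conj hBB
  have key : ∀ (g B : SL2) (t : List SL2), IsX τ B → (∀ g ∈ t, ∃ h : SL2, g = h * a * h⁻¹) →
      (g * y ^ i * g⁻¹) * t.prod * B = 1 →
      ∃ T : List (Lab × SL2), Eqv (tup (g * y ^ i * g⁻¹) t B) ((.zero, y ^ i) :: T) ∧
        (∀ p ∈ T, ∃ g, p.2 = g * (md (.D true) τ).M p.1 * g⁻¹) ∧
        T.map Prod.fst = List.replicate t.length .nod ++ [.inf] ∧
        cj (pr T) = Yp (-(i : ZMod 3)) := by
    intro g B t hB ht h1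
    obtain ⟨h, rfl⟩ := hB
    have e0 := Eqv.conj g⁻¹ (tup (g * y ^ i * g⁻¹) t (h * τ.val * h⁻¹))
    have hpr0 : pr (cL g⁻¹ (tup (g * y ^ i * g⁻¹) t (h * τ.val * h⁻¹))) = 1 := by
      rw [← Eqv.pr_one e0, pr_tup, h1]
    rw [cL_tup] at e0 hpr0
    have c1 : g⁻¹ * (g * y ^ i * g⁻¹) * g⁻¹⁻¹ = y ^ i := by group
    have c2 : g⁻¹ * (h * τ.val * h⁻¹) * g⁻¹⁻¹ = (g⁻¹ * h) * τ.val * (g⁻¹ * h)⁻¹ := by group
    rw [c1, c2] at e0 hpr0
    refine ⟨_, e0, ?_, ?_, ?_⟩
    · intro p hp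
      rcases List.mem_append.1 hp with hp | hp
      · obtain ⟨u, hu, rfl⟩ := List.mem_map.1 hp
        exact twist_conj ht g⁻¹ u hu
      · rw [List.mem_singleton] at hp
        subst hp
        exact ⟨g⁻¹ * h, rfl⟩
    · rw [List.map_append, fst_map]; simp
    · unfold tup at hpr0
      rw [pr_cons] at hpr0
      have h4 := (inv_eq_of_mul_eq_one_right hpr0).symm
      rw [h4]
      simp only
      rw [map_inv, cj_ypow, Yp_neg]
  obtain ⟨T, hT, hT1, hT2, hT3⟩ := key g B t hB ht h1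
  have hA' : u * (g * y ^ i * g⁻¹) * u⁻¹ = (u * g) * y ^ i * (u * g)⁻¹ := by group
  rw [hA'] at h1' ⊢
  obtain ⟨T', hT', hT1', hT2', hT3'⟩ := key (u * g) B' t' hB' ht' h1'
  refine hT.trans (Eqv.trans ?_ hT'.symm)
  refine Hur.eqv (Hur.cons _ ?_)
  refine hur_of_perm _ T T' hT1 hT1' (by rw [hT2, hT2', hl]) hT3 hT3' ?_
  rw [hT2]
  have hn : (md (.D true) τ).D .nod = true := rfl
  cases hτ : τ.isD with
  | true =>
    left
    intro s hs
    rcases List.mem_append.1 hs with hs | hs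
    · rw [List.eq_of_mem_replicate hs]; rfl
    · rw [List.mem_singleton] at hs
      rw [hs]; exact hτ
  | false =>
    right
    refine ⟨.inf, hτ, ?_, ?_⟩
    · rw [List.count_append, List.count_replicate]; simp
    · intro s h1 h2
      rcases List.mem_append.1 h2 with hs | hs
      · rw [List.eq_of_mem_replicate hs]; rfl
      · rw [List.mem_singleton] at hs
        exact absurd hs h1

/-- Another type and vertex type. -/
theorem unique_xv {A B A' B' : SL2} {t t' : List SL2} {τ : Ty}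
    (hA : IsX τ A) (hB : IsV B) (hAA : IsConj A A') (hBB : IsConj B B')
    (ht : ∀ g ∈ t, ∃ h : SL2, g = h * a * h⁻¹) (ht' : ∀ g ∈ t', ∃ h : SL2, g = h * a * h⁻¹)
    (hl : t.length = t'.length) (h1 : A * t.prod * B = 1) (h1' : A' * t'.prod * B' = 1) :
    Eqv (tup A t B) (tup A' t' B') := by
  obtain ⟨g, i, rfl⟩ := hB
  obtain ⟨u, rfl⟩ := isConj_iff.1 hBB
  have hA' := hA.conj hAA
  have key : ∀ (g A : SL2) (t : List SL2), IsX τ A → (∀ g ∈ t, ∃ h : SL2, g = h * a * h⁻¹) →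
      A * t.prod * (g * y ^ i * g⁻¹) = 1 →
      ∃ T : List (Lab × SL2), Eqv (tup A t (g * y ^ i * g⁻¹)) (T ++ [(.inf, y ^ i)]) ∧
        (∀ p ∈ T, ∃ g, p.2 = g * (md τ (.D true)).M p.1 * g⁻¹) ∧
        T.map Prod.fst = .zero :: List.replicate t.length .nod ∧
        cj (pr T) = Yp (-(i : ZMod 3)) := by
    intro g A t hA ht h1
    obtain ⟨h, rfl⟩ := hA
    have e0 := Eqv.conj g⁻¹ (tup (h * τ.val * h⁻¹) t (g * y ^ i * g⁻¹))
    have hpr0 : pr (cL g⁻¹ (tup (h * τ.val * h⁻¹) t (g * y ^ i * g⁻¹))) = 1 := by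
      rw [← Eqv.pr_one e0, pr_tup, h1]
    rw [cL_tup] at e0 hpr0
    have c1 : g⁻¹ * (g * y ^ i * g⁻¹) * g⁻¹⁻¹ = y ^ i := by group
    have c2 : g⁻¹ * (h * τ.val * h⁻¹) * g⁻¹⁻¹ = (g⁻¹ * h) * τ.val * (g⁻¹ * h)⁻¹ := by group
    rw [c1, c2] at e0 hpr0
    have htup : tup ((g⁻¹ * h) * τ.val * (g⁻¹ * h)⁻¹) (t.map (fun h => g⁻¹ * h * g⁻¹⁻¹)) (y ^ i) =
        ((.zero, (g⁻¹ * h) * τ.val * (g⁻¹ * h)⁻¹) ::
          (t.map (fun h => g⁻¹ * h * g⁻¹⁻¹)).map (fun g => ((Lab.nod, g) : Lab × SL2))) ++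
          [(.inf, y ^ i)] := rfl
    rw [htup] at e0 hpr0
    refine ⟨_, e0, ?_, ?_, ?_⟩
    · intro p hp
      rcases List.mem_cons.1 hp with hp | hp
      · subst hp
        exact ⟨g⁻¹ * h, rfl⟩
      · obtain ⟨u, hu, rfl⟩ := List.mem_map.1 hp
        exact twist_conj ht g⁻¹ u hu
    · rw [List.map_cons, fst_map]; simp
    · rw [pr_append] at hpr0
      have h4 := eq_inv_of_mul_eq_one_left hpr0
      rw [h4]
      simp only [pr_cons, pr_nil, mul_one]
      rw [map_inv, cj_ypow, Yp_neg]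
  obtain ⟨T, hT, hT1, hT2, hT3⟩ := key g A t hA ht h1
  have hB' : u * (g * y ^ i * g⁻¹) * u⁻¹ = (u * g) * y ^ i * (u * g)⁻¹ := by group
  rw [hB'] at h1' ⊢
  obtain ⟨T', hT', hT1', hT2', hT3'⟩ := key (u * g) A' t' hA' ht' h1'
  refine hT.trans (Eqv.trans ?_ hT'.symm)
  refine Hur.eqv (Hur.right _ ?_)
  refine hur_of_perm _ T T' hT1 hT1' (by rw [hT2, hT2', hl]) hT3 hT3' ?_
  rw [hT2]
  cases hτ : τ.isD with
  | true =>
    left
    intro s hs
    rcases List.mem_cons.1 hs with hs | hs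
    · rw [hs]; exact hτ
    · rw [List.eq_of_mem_replicate hs]; rfl
  | false =>
    right
    refine ⟨.zero, hτ, ?_, ?_⟩
    · rw [List.count_cons, List.count_replicate]; simp
    · intro s h1 h2
      rcases List.mem_cons.1 h2 with hs | hs
      · exact absurd hs h1
      · rw [List.eq_of_mem_replicate hs]; rfl

/-- Two other types, not both elliptic. -/
theorem unique_xx {A B A' B' : SL2} {t t' : List SL2} {σ τ : Ty}
    (hA : IsX σ A) (hB : IsX τ B) (hAA : IsConj A A') (hBB : IsConj B B')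
    (hne : σ.isD = true ∨ τ.isD = true)
    (ht : ∀ g ∈ t, ∃ h : SL2, g = h * a * h⁻¹) (ht' : ∀ g ∈ t', ∃ h : SL2, g = h * a * h⁻¹)
    (hl : t.length = t'.length) (h1 : A * t.prod * B = 1) (h1' : A' * t'.prod * B' = 1) :
    Eqv (tup A t B) (tup A' t' B') := by
  have hA' := hA.conj hAA
  have hB' := hB.conj hBB
  have hmem : ∀ (A B : SL2) (t : List SL2), IsX σ A → IsX τ B →
      (∀ g ∈ t, ∃ h : SL2, g = h * a * h⁻¹) →
      (∀ p ∈ tup A t B, ∃ g, p.2 = g * (md σ τ).M p.1 * g⁻¹) := by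
    intro A B t hA hB ht p hp
    rcases List.mem_cons.1 hp with hp | hp
    · subst hp; exact hA
    · rcases List.mem_append.1 hp with hp | hp
      · obtain ⟨u, hu, rfl⟩ := List.mem_map.1 hp
        exact ht u hu
      · rw [List.mem_singleton] at hp
        subst hp; exact hB
  have hlab : ∀ (A B : SL2) (t : List SL2),
      (tup A t B).map Prod.fst = .zero :: (List.replicate t.length .nod ++ [.inf]) := by
    intro A B t
    unfold tup
    rw [List.map_cons, List.map_append, fst_map]; rfl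
  refine Hur.eqv (hur_of_perm (md σ τ) _ _ (hmem A B t hA hB ht) (hmem A' B' t' hA' hB' ht')
    (by rw [hlab, hlab, hl]) (e := 0) (e' := 0) (by rw [pr_tup, h1, map_one, Yp_zero])
    (by rw [pr_tup, h1', map_one, Yp_zero]) ?_)
  rw [hlab]
  cases hσ : σ.isD with
  | true =>
    cases hτ : τ.isD with
    | true =>
      left
      intro s hs
      cases s
      · rfl
      · exact hσ
      · exact hτ
    | false =>
      right
      refine ⟨.inf, hτ, ?_, ?_⟩
      · simp [List.count_append, List.count_replicate]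
      · intro s h1 _
        cases s
        · rfl
        · exact hσ
        · exact absurd rfl h1
  | false =>
    rcases hne with h | h
    · rw [hσ] at h; cases h
    · right
      refine ⟨.zero, hσ, ?_, ?_⟩
      · simp [List.count_append, List.count_replicate]
      · intro s h1 _
        cases s
        · rfl
        · exact absurd rfl h1
        · exact h

/-- The classification of tuples with two special entries, each of finite order or
conjugate to plus or minus a Dehn twist. -/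
theorem unique2 {A B A' B' : SL2} {t t' : List SL2}
    (hA : IsOfFinOrder A ∨ IsConj a A ∨ IsConj (-a) A)
    (hB : IsOfFinOrder B ∨ IsConj a B ∨ IsConj (-a) B)
    (hAA : IsConj A A') (hBB : IsConj B B')
    (ht : ∀ g ∈ t, ∃ h : SL2, g = h * a * h⁻¹) (ht' : ∀ g ∈ t', ∃ h : SL2, g = h * a * h⁻¹)
    (hl : t.length = t'.length) (h1 : A * t.prod * B = 1) (h1' : A' * t'.prod * B' = 1) :
    Eqv (tup A t B) (tup A' t' B') := by
  have conv : ∀ A : SL2, (IsConj a A ∨ IsConj (-a) A) → ∃ e : Bool, IsX (.D e) A := by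
    rintro A (h | h)
    · obtain ⟨u, hu⟩ := isConj_iff.1 h
      exact ⟨true, u, hu.symm⟩
    · obtain ⟨u, hu⟩ := isConj_iff.1 h
      exact ⟨false, u, hu.symm⟩
  have fin : ∀ A : SL2, IsOfFinOrder A → IsV A ∨ ∃ e : Bool, IsX (.E e) A := by
    intro A h
    rcases torsion A h with ⟨g, i, h⟩ | ⟨g, e, h⟩
    · exact Or.inl ⟨g, i, h⟩
    · refine Or.inr ⟨e, g, ?_⟩
      cases e
      · exact h
      · exact h
  rcases hA with hA | hA
  · rcases hB with hB | hB
    · exact unique hA hB hAA hBB ht ht' hl h1 h1'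
    · obtain ⟨e, hB⟩ := conv B hB
      rcases fin A hA with hA | ⟨f, hA⟩
      · exact unique_vx hA hB hAA hBB ht ht' hl h1 h1'
      · exact unique_xx hA hB hAA hBB (Or.inr rfl) ht ht' hl h1 h1'
  · obtain ⟨f, hA⟩ := conv A hA
    rcases hB with hB | hB
    · rcases fin B hB with hB | ⟨e, hB⟩
      · exact unique_xv hA hB hAA hBB ht ht' hl h1 h1'
      · exact unique_xx hA hB hAA hBB (Or.inl rfl) ht ht' hl h1 h1'
    · obtain ⟨e, hB⟩ := conv B hB
      exact unique_xx hA hB hAA hBB (Or.inl rfl) ht ht' hl h1 h1'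

end Run7.h371.G
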