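import Mathlib
import Pool.Agent.Run7.h371.Moves

/-!
# Monodromy data of base-rotating cyclic actions on elliptic fibrations of the K3 manifold
-/

set_option autoImplicit false

open ModularGroup

namespace Run7.h371.G

/-- `Kodaira M e`: the matrix `M` is the monodromy of one of Kodaira's fibres (of type `I_k`,
`I_k*`, `II`, `III`, `IV`, `IV*`, `III*`, `II*`), and `e` is the Euler number of that fibre. -/
inductive Kodaira : Matrix.SpecialLinearGroup (Fin 2) ℤ → ℕ → Prop
  | I {M : Matrix.SpecialLinearGroup (Fin 2) ℤ} (k : ℕ) : IsConj (T ^ k) M → Kodaira M k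
  | Istar {M : Matrix.SpecialLinearGroup (Fin 2) ℤ} (k : ℕ) :
      IsConj (-(T ^ k)) M → Kodaira M (k + 6)
  | II {M : Matrix.SpecialLinearGroup (Fin 2) ℤ} : IsConj (T * S)⁻¹ M → Kodaira M 2
  | III {M : Matrix.SpecialLinearGroup (Fin 2) ℤ} : IsConj S⁻¹ M → Kodaira M 3
  | IV {M : Matrix.SpecialLinearGroup (Fin 2) ℤ} : IsConj ((T * S) ^ 2)⁻¹ M → Kodaira M 4
  | IVstar {M : Matrix.SpecialLinearGroup (Fin 2) ℤ} : IsConj ((T * S) ^ 2) M → Kodaira M 8
  | IIIstar {M : Matrix.SpecialLinearGroup (Fin 2) ℤ} : IsConj S M → Kodaira M 9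
  | IIstar {M : Matrix.SpecialLinearGroup (Fin 2) ℤ} : IsConj (T * S) M → Kodaira M 10

/-- The monodromy datum of the quotient of an elliptic fibration of the K3 manifold by a
`ℤ/p`-action rotating the base sphere: the monodromies `A`, `B` around the images of the two
invariant fibres (whose own monodromies are `A ^ p`, `B ^ p`, Kodaira fibres of Euler number
`eA`, `eB`) and the monodromies `t` around the nodal fibres, one for every free orbit of nodal
fibres; the Euler numbers of all fibres add up to `24`. -/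
structure RotDatum (p : ℕ) where
  A : Matrix.SpecialLinearGroup (Fin 2) ℤ
  B : Matrix.SpecialLinearGroup (Fin 2) ℤ
  t : List (Matrix.SpecialLinearGroup (Fin 2) ℤ)
  eA : ℕ
  eB : ℕ
  kodaira_A : Kodaira (A ^ p) eA
  kodaira_B : Kodaira (B ^ p) eB
  twist : ∀ g ∈ t, IsConj T g
  closed : A * t.prod * B = 1
  euler : eA + eB + p * t.length = 24

/-- The labelled tuple `(zero, A), (nod, t₁), …, (nod, tₘ), (inf, B)`. -/
def RotDatum.tuple {p : ℕ} (D : RotDatum p) :
    List (Lab × Matrix.SpecialLinearGroup (Fin 2) ℤ) :=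
  (Lab.zero, D.A) :: (D.t.map (fun g => (Lab.nod, g)) ++ [(Lab.inf, D.B)])

end Run7.h371.G
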