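import Mathlib
import Pool.Agent.Run7.h371.G.RotDatum
import Pool.Agent.Run7.h371.G.Chi
import Pool.Agent.Run7.h371.G.Main

/-!
# Parabolic special entries
-/

set_option autoImplicit false

namespace Run7.h371.G

open Run7.h371 ModularGroup

theorem TS_eq : T * S = y⁻¹ := by apply Subtype.ext; decide
theorem TSi_eq : (T * S)⁻¹ = y := by rw [TS_eq, inv_inv]
theorem TS2_eq : (T * S) ^ 2 = y ^ 4 := by apply Subtype.ext; decide
theorem TS2i_eq : ((T * S) ^ 2)⁻¹ = y ^ 2 := by apply Subtype.ext; decide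
theorem Si_eq : S⁻¹ = x := by apply Subtype.ext; decide
theorem S_eq' : S = x⁻¹ := by apply Subtype.ext; decide

theorem T_pow_val (k : ℕ) : (T ^ k).1 = !![1, (k : ℤ); 0, 1] := by
  have := coe_T_zpow (k : ℤ)
  rw [zpow_natCast] at this
  exact this

/-- The trace. -/
def tr (g : SL2) : ℤ := g.1 0 0 + g.1 1 1

theorem tr_conj (g h : SL2) : tr (g * h * g⁻¹) = tr h := by
  have h1 : tr (g * h * g⁻¹) = Matrix.trace (g * h * g⁻¹).1 := by
    rw [Matrix.trace_fin_two]; rfl
  have h2 : (g * h * g⁻¹).1 = g.1 * h.1 * (g⁻¹).1 := rfl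
  have h3 : (g⁻¹).1 * g.1 = 1 := by
    have : (g⁻¹ * g).1 = (g⁻¹).1 * g.1 := rfl
    rw [← this, inv_mul_cancel]; rfl
  rw [h1, h2, Matrix.trace_mul_comm, ← Matrix.mul_assoc, h3, Matrix.one_mul, Matrix.trace_fin_two]
  rfl

theorem tr_isConj {g h : SL2} (hc : IsConj g h) : tr g = tr h := by
  obtain ⟨u, rfl⟩ := isConj_iff.1 hc
  rw [tr_conj]

theorem inv_val (g : SL2) : (g⁻¹).1 = !![g.1 1 1, -g.1 0 1; -g.1 1 0, g.1 0 0] := by
  rw [Matrix.SpecialLinearGroup.SL2_inv_expl]; rfl

theorem tr_inv (g : SL2) : tr g⁻¹ = tr g := by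
  unfold tr
  rw [inv_val]
  simp [add_comm]

theorem tr_T_pow (k : ℕ) : tr (T ^ k) = 2 := by
  unfold tr
  rw [T_pow_val]; simp

theorem tr_neg (g : SL2) : tr (-g) = -tr g := by
  unfold tr
  have : (-g).1 = -g.1 := rfl
  rw [this]
  simp only [Matrix.neg_apply]
  ring

theorem chi_T : chi T = 1 := by decide
theorem chi_T_pow (k : ℕ) : chi (T ^ k) = k := by rw [chi_pow, chi_T, mul_one]

/-- The character of a Kodaira monodromy. -/
theorem Kodaira.chi {M : SL2} {e : ℕ} (h : Kodaira M e) : chi M = e := by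
  cases h with
  | I k h => rw [← chi_isConj h, chi_T_pow]
  | Istar k h => rw [← chi_isConj h, chi_neg, chi_T_pow]; push_cast; ring
  | II h => rw [← chi_isConj h, TSi_eq]; decide
  | III h => rw [← chi_isConj h, Si_eq]; decide
  | IV h => rw [← chi_isConj h, TS2i_eq]; decide
  | IVstar h => rw [← chi_isConj h, TS2_eq]; decide
  | IIIstar h => rw [← chi_isConj h, S_eq']; decide
  | IIstar h => rw [← chi_isConj h, TS_eq]; decide

/-- Conjugate powers of `T`. -/
theorem T_pow_conj {k l : ℕ} (h : IsConj (T ^ k) (T ^ l)) : k = l := by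
  obtain ⟨g, hg⟩ := isConj_iff.1 h
  have h1 : g * T ^ k = T ^ l * g := by rw [← hg]; group
  have h2 : ∀ i j, (g.1 * (T ^ k).1) i j = ((T ^ l).1 * g.1) i j := fun i j =>
    congrArg (fun (z : SL2) => z.1 i j) h1
  rw [T_pow_val, T_pow_val] at h2
  have e00 := h2 0 0
  have e01 := h2 0 1
  have e11 := h2 1 1
  simp [Matrix.mul_apply, Fin.sum_univ_two] at e00 e01 e11
  have hdet := g.det_coe
  rw [Matrix.det_fin_two] at hdet
  rcases e00 with h0 | h0
  · -- l = 0
    subst h0
    simp at e01 e11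
    rcases e01 with h3 | h3
    · rcases e11 with h4 | h4
      · rw [h3, h4] at hdet; simp at hdet
      · exact h4
    · exact h3
  · rw [h0] at hdet
    simp only [mul_zero, sub_zero] at hdet
    rcases Int.eq_one_or_neg_one_of_mul_eq_one hdet with h3 | h3
    · rw [h3] at hdet e01
      have h4 : g.1 1 1 = 1 := by linarith
      rw [h4] at e01
      have : (k : ℤ) = l := by linarith
      exact_mod_cast this
    · rw [h3] at hdet e01
      have h4 : g.1 1 1 = -1 := by linarith
      rw [h4] at e01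
      have : (k : ℤ) = l := by linarith
      exact_mod_cast this

theorem conj_neg {g h : SL2} (hc : IsConj (-g) (-h)) : IsConj g h := by
  obtain ⟨u, hu⟩ := isConj_iff.1 hc
  refine isConj_iff.2 ⟨u, ?_⟩
  have : -(u * g * u⁻¹) = -h := by rw [← hu]; simp
  exact neg_injective this

/-- The Euler number is determined by the monodromy. -/
theorem Kodaira.unique {M : SL2} {e f : ℕ} (h : Kodaira M e) (h' : Kodaira M f) : e = f := by
  have hchi : (e : ZMod 12) = f := by rw [← h.chi, h'.chi]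
  have t1 : tr y = 1 := by decide
  have t2 : tr x = 0 := by decide
  have t3 : tr (y ^ 2) = -1 := by decide
  have t4 : tr (y ^ 4) = -1 := by decide
  have t5 : tr x⁻¹ = 0 := by decide
  have t6 : tr y⁻¹ = 1 := by decide
  have ell : ∀ {M : SL2} {e : ℕ}, Kodaira M e → tr M ≠ 2 → tr M ≠ -2 → e < 12 := by
    intro M e h h1 h2
    cases h with
    | I k h => rw [← tr_isConj h, tr_T_pow] at h1; exact absurd rfl h1
    | Istar k h => rw [← tr_isConj h, tr_neg, tr_T_pow] at h2; exact absurd rfl h2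
    | II h => norm_num
    | III h => norm_num
    | IV h => norm_num
    | IVstar h => norm_num
    | IIIstar h => norm_num
    | IIstar h => norm_num
  have par : ∀ {M : SL2} {e : ℕ}, Kodaira M e → tr M = 2 → ∃ k, e = k ∧ IsConj (T ^ k) M := by
    intro M e h h1
    cases h with
    | I k h => exact ⟨_, rfl, h⟩
    | Istar k h => rw [← tr_isConj h, tr_neg, tr_T_pow] at h1; norm_num at h1
    | II h => rw [← tr_isConj h, TSi_eq, t1] at h1; norm_num at h1
    | III h => rw [← tr_isConj h, Si_eq, t2] at h1; norm_num at h1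
    | IV h => rw [← tr_isConj h, TS2i_eq, t3] at h1; norm_num at h1
    | IVstar h => rw [← tr_isConj h, TS2_eq, t4] at h1; norm_num at h1
    | IIIstar h => rw [← tr_isConj h, S_eq', t5] at h1; norm_num at h1
    | IIstar h => rw [← tr_isConj h, TS_eq, t6] at h1; norm_num at h1
  have par' : ∀ {M : SL2} {e : ℕ}, Kodaira M e → tr M = -2 →
      ∃ k, e = k + 6 ∧ IsConj (-(T ^ k)) M := by
    intro M e h h1
    cases h with
    | I k h => rw [← tr_isConj h, tr_T_pow] at h1; norm_num at h1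
    | Istar k h => exact ⟨_, rfl, h⟩
    | II h => rw [← tr_isConj h, TSi_eq, t1] at h1; norm_num at h1
    | III h => rw [← tr_isConj h, Si_eq, t2] at h1; norm_num at h1
    | IV h => rw [← tr_isConj h, TS2i_eq, t3] at h1; norm_num at h1
    | IVstar h => rw [← tr_isConj h, TS2_eq, t4] at h1; norm_num at h1
    | IIIstar h => rw [← tr_isConj h, S_eq', t5] at h1; norm_num at h1
    | IIstar h => rw [← tr_isConj h, TS_eq, t6] at h1; norm_num at h1
  by_cases h2 : tr M = 2
  · obtain ⟨k, rfl, hk⟩ := par h h2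
    obtain ⟨l, rfl, hl⟩ := par h' h2
    exact T_pow_conj (hk.trans hl.symm)
  · by_cases h3 : tr M = -2
    · obtain ⟨k, rfl, hk⟩ := par' h h3
      obtain ⟨l, rfl, hl⟩ := par' h' h3
      rw [T_pow_conj (conj_neg (hk.trans hl.symm))]
    · have h4 := ell h h2 h3
      have h5 := ell h' h2 h3
      have h6 := (ZMod.natCast_eq_natCast_iff e f 12).1 hchi
      have h7 : e % 12 = f % 12 := h6
      rw [Nat.mod_eq_of_lt h4, Nat.mod_eq_of_lt h5] at h7
      exact h7

/-- Roots of powers of `T`. -/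
theorem root_T {C : SL2} {k : ℕ} (hk : 0 < k) (hcomm : C * T ^ k = T ^ k * C) :
    ∃ j : ℤ, C = T ^ j ∨ C = -(T ^ j) := by
  have h2 : ∀ i j, (C.1 * (T ^ k).1) i j = ((T ^ k).1 * C.1) i j := fun i j =>
    congrArg (fun (z : SL2) => z.1 i j) hcomm
  rw [T_pow_val] at h2
  have e00 := h2 0 0
  have e01 := h2 0 1
  simp [Matrix.mul_apply, Fin.sum_univ_two] at e00 e01
  have hk' : (k : ℤ) ≠ 0 := by exact_mod_cast hk.ne'
  have h10 : C.1 1 0 = 0 := by
    rcases e00 with h | h
    · omega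
    · exact h
  have h00 : C.1 0 0 = C.1 1 1 := by
    have : (k : ℤ) * (C.1 0 0 - C.1 1 1) = 0 := by linarith
    rcases mul_eq_zero.1 this with h | h
    · exact absurd h hk'
    · linarith
  have hdet := C.det_coe
  rw [Matrix.det_fin_two, h10, h00, mul_zero, sub_zero] at hdet
  rcases mul_self_eq_one_iff.1 hdet with h | h
  · refine ⟨C.1 0 1, Or.inl ?_⟩
    apply Subtype.ext
    rw [coe_T_zpow]
    ext i j
    fin_cases i <;> fin_cases j <;> simp [h10, h00, h]
  · refine ⟨-C.1 0 1, Or.inr ?_⟩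
    apply Subtype.ext
    have : (-(T ^ (-C.1 0 1)) : SL2).1 = -(T ^ (-C.1 0 1)).1 := rfl
    rw [this, coe_T_zpow]
    ext i j
    fin_cases i <;> fin_cases j <;> simp [h10, h00, h]

theorem fin_conj {g h : SL2} (hc : IsConj g h) (hg : IsOfFinOrder g) : IsOfFinOrder h := by
  obtain ⟨u, rfl⟩ := isConj_iff.1 hc
  obtain ⟨n, hn, h1⟩ := isOfFinOrder_iff_pow_eq_one.1 hg
  refine isOfFinOrder_iff_pow_eq_one.2 ⟨n, hn, ?_⟩
  rw [conj_pow, h1]; simp

theorem fin_y (i : ℕ) : IsOfFinOrder (y ^ i) := by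
  refine isOfFinOrder_iff_pow_eq_one.2 ⟨6, by norm_num, ?_⟩
  rw [← pow_mul, mul_comm, pow_mul]
  have : y ^ 6 = 1 := by decide
  rw [this, one_pow]

theorem fin_x : IsOfFinOrder x := by
  refine isOfFinOrder_iff_pow_eq_one.2 ⟨4, by norm_num, by decide⟩

theorem T_zpow_inj {i j : ℤ} (h : T ^ i = T ^ j) : i = j := by
  have : (T ^ i).1 0 1 = (T ^ j).1 0 1 := by rw [h]
  rw [coe_T_zpow, coe_T_zpow] at this
  simpa using this

theorem T_zpow_ne {i j : ℤ} (h : T ^ i = -(T ^ j)) : False := by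
  have : (T ^ i).1 0 0 = (-(T ^ j) : SL2).1 0 0 := by rw [h]
  have e : (-(T ^ j) : SL2).1 = -(T ^ j).1 := rfl
  rw [e, coe_T_zpow, coe_T_zpow] at this
  simp at this

/-- The roots of a Kodaira monodromy. -/
theorem root {p : ℕ} (hp : Odd p) {A : SL2} {e : ℕ} (h : Kodaira (A ^ p) e) :
    IsOfFinOrder A ∨ ∃ k : ℕ, 0 < k ∧ ((IsConj (T ^ k) A ∧ e = p * k) ∨
      (IsConj (-(T ^ k)) A ∧ e = p * k + 6)) := by
  have hp0 : p ≠ 0 := by rintro rfl; simp at hp
  have hfin : ∀ {g : SL2}, IsConj g (A ^ p) → IsOfFinOrder g → IsOfFinOrder A := by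
    intro g hc hg
    exact (fin_conj hc hg).of_pow hp0
  have hone : IsOfFinOrder (1 : SL2) := IsOfFinOrder.one
  have hneg : IsOfFinOrder (-1 : SL2) :=
    isOfFinOrder_iff_pow_eq_one.2 ⟨2, by norm_num, by decide⟩
  cases h with
  | I k h =>
    rcases Nat.eq_zero_or_pos e with rfl | hk
    · left
      rw [pow_zero] at h
      exact hfin h hone
    · right
      obtain ⟨g, hg⟩ := isConj_iff.1 h
      have hC : (g⁻¹ * A * g) ^ p = T ^ e := by
        have : (g⁻¹ * A * g⁻¹⁻¹) ^ p = g⁻¹ * A ^ p * g⁻¹⁻¹ := conj_pow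
        rw [inv_inv] at this
        rw [this, ← hg]; group
      have hcomm : (g⁻¹ * A * g) * T ^ e = T ^ e * (g⁻¹ * A * g) := by
        rw [← hC, ← pow_succ, ← pow_succ']
      obtain ⟨j, hj | hj⟩ := root_T hk hcomm
      · rw [hj, ← zpow_natCast, ← zpow_mul, ← zpow_natCast] at hC
        have h1 := T_zpow_inj hC
        have hjpos : 0 < j := by
          by_contra hneg
          push Not at hneg
          have : j * (p : ℤ) ≤ 0 := mul_nonpos_of_nonpos_of_nonneg hneg (by positivity)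
          omega
        obtain ⟨l, rfl⟩ := Int.eq_ofNat_of_zero_le hjpos.le
        refine ⟨l, by exact_mod_cast hjpos, Or.inl ⟨?_, ?_⟩⟩
        · refine isConj_iff.2 ⟨g, ?_⟩
          rw [← zpow_natCast]
          have : T ^ (l : ℤ) = g⁻¹ * A * g := hj.symm
          rw [this]; group
        · have : (l : ℤ) * p = e := h1
          have h2 : l * p = e := by exact_mod_cast this
          rw [← h2]; ring
      · exfalso
        rw [hj, neg_pow, hp.neg_one_pow, ← zpow_natCast, ← zpow_mul] at hC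
        have h1 : T ^ (e : ℤ) = -(T ^ (j * (p : ℤ))) := by
          rw [zpow_natCast, ← hC]; simp
        exact T_zpow_ne h1
  | Istar k h =>
    rcases Nat.eq_zero_or_pos k with rfl | hk
    · left
      rw [pow_zero] at h
      exact hfin h hneg
    · right
      obtain ⟨g, hg⟩ := isConj_iff.1 h
      have hC : (g⁻¹ * A * g) ^ p = -(T ^ k) := by
        have : (g⁻¹ * A * g⁻¹⁻¹) ^ p = g⁻¹ * A ^ p * g⁻¹⁻¹ := conj_pow
        rw [inv_inv] at this
        rw [this, ← hg]; group
      have hcomm : (g⁻¹ * A * g) * T ^ k = T ^ k * (g⁻¹ * A * g) := by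
        have h1 : (g⁻¹ * A * g) * -(T ^ k) = -(T ^ k) * (g⁻¹ * A * g) := by
          rw [← hC, ← pow_succ, ← pow_succ']
        have h2 : -((g⁻¹ * A * g) * T ^ k) = -(T ^ k * (g⁻¹ * A * g)) := by
          rw [← mul_neg, h1, neg_mul]
        exact neg_injective h2
      obtain ⟨j, hj | hj⟩ := root_T hk hcomm
      · exfalso
        rw [hj, ← zpow_natCast, ← zpow_mul, ← zpow_natCast] at hC
        exact T_zpow_ne hC
      · rw [hj, neg_pow, hp.neg_one_pow, ← zpow_natCast, ← zpow_mul] at hC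
        have h1 : T ^ (j * (p : ℤ)) = T ^ (k : ℤ) := by
          have : -(T ^ (j * (p : ℤ))) = -(T ^ k) := by rw [← hC]; simp
          rw [neg_injective this, zpow_natCast]
        have h1 := T_zpow_inj h1
        have hjpos : 0 < j := by
          by_contra hneg
          push Not at hneg
          have : j * (p : ℤ) ≤ 0 := mul_nonpos_of_nonpos_of_nonneg hneg (by positivity)
          omega
        obtain ⟨l, rfl⟩ := Int.eq_ofNat_of_zero_le hjpos.le
        refine ⟨l, by exact_mod_cast hjpos, Or.inr ⟨?_, ?_⟩⟩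
        · refine isConj_iff.2 ⟨g, ?_⟩
          rw [← zpow_natCast]
          have : -(T ^ (l : ℤ)) = g⁻¹ * A * g := hj.symm
          rw [this]; group
        · have : (l : ℤ) * p = k := h1
          have h2 : l * p = k := by exact_mod_cast this
          rw [← h2]; ring
  | II h => left; rw [TSi_eq] at h; exact hfin h (by simpa using fin_y 1)
  | III h => left; rw [Si_eq] at h; exact hfin h fin_x
  | IV h => left; rw [TS2i_eq] at h; exact hfin h (fin_y 2)
  | IVstar h => left; rw [TS2_eq] at h; exact hfin h (fin_y 4)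
  | IIIstar h => left; rw [S_eq'] at h; exact hfin h fin_x.inv
  | IIstar h => left; rw [TS_eq] at h; exact hfin h (by simpa using (fin_y 1).inv)

end Run7.h371.G
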