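import Mathlib
import Pool.Agent.Run7.h371.G.Parab

/-!
# Parabolic special entries of higher multiplicity, few twists
-/

set_option autoImplicit false

namespace Run7.h371.G

open Run7.h371 ModularGroup

theorem twist_val (h : SL2) : (h * a * h⁻¹).1 = !![1 - h.1 0 0 * h.1 1 0, h.1 0 0 ^ 2;
    -(h.1 1 0) ^ 2, 1 + h.1 0 0 * h.1 1 0] := by
  have h1 : (h * a * h⁻¹).1 = h.1 * a.1 * (h⁻¹).1 := rfl
  have h2 : h.1 = !![h.1 0 0, h.1 0 1; h.1 1 0, h.1 1 1] := Matrix.eta_fin_two h.1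
  have hdet := h.det_coe
  rw [Matrix.det_fin_two] at hdet
  rw [h1, inv_val, a_val]
  conv_lhs => rw [h2, Matrix.mul_fin_two, Matrix.mul_fin_two]
  ext i j
  fin_cases i <;> fin_cases j <;> simp
  · linear_combination hdet
  · ring
  · ring
  · linear_combination hdet

/-- Trace and torsion. -/
theorem fin_tr {g : SL2} (hg : IsOfFinOrder g) : |tr g| ≤ 1 ∨ g = 1 ∨ g = -1 := by
  rcases torsion g hg with ⟨h, i, rfl⟩ | ⟨h, e, rfl⟩
  · have h6 : y ^ 6 = 1 := by decide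
    have hi : y ^ i = y ^ (i % 6) := by
      conv_lhs => rw [← Nat.mod_add_div i 6, pow_add, pow_mul, h6, one_pow, mul_one]
    rw [hi]
    have hlt : i % 6 < 6 := Nat.mod_lt _ (by norm_num)
    have key : ∀ k : Fin 6, |tr (y ^ (k : ℕ))| ≤ 1 ∨ y ^ (k : ℕ) = 1 ∨ y ^ (k : ℕ) = -1 := by
      have h1 : ∀ k : Fin 6, tr (y ^ (k : ℕ)) = 0 ∨ tr (y ^ (k : ℕ)) = 1 ∨
          tr (y ^ (k : ℕ)) = -1 ∨ y ^ (k : ℕ) = 1 ∨ y ^ (k : ℕ) = -1 := by
        unfold tr; decide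
      intro k
      rcases h1 k with h | h | h | h | h
      · left; rw [h]; norm_num
      · left; rw [h]; norm_num
      · left; rw [h]; norm_num
      · exact Or.inr (Or.inl h)
      · exact Or.inr (Or.inr h)
    rcases key ⟨i % 6, hlt⟩ with h1 | h1 | h1
    · left; rw [tr_conj]; exact h1
    · right; left
      simp only at h1
      rw [h1]; simp
    · right; right
      simp only at h1
      rw [h1]; simp
  · left
    rw [tr_conj]
    have : tr (xe e) = 0 := by cases e <;> decide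
    rw [this]; norm_num

theorem T_pow_mul_val (k : ℕ) (g : SL2) : (T ^ k * g).1 = !![g.1 0 0 + k * g.1 1 0,
    g.1 0 1 + k * g.1 1 1; g.1 1 0, g.1 1 1] := by
  have h1 : (T ^ k * g).1 = (T ^ k).1 * g.1 := rfl
  have h2 : g.1 = !![g.1 0 0, g.1 0 1; g.1 1 0, g.1 1 1] := Matrix.eta_fin_two g.1
  rw [h1, T_pow_val]
  conv_lhs => rw [h2, Matrix.mul_fin_two]
  ext i j
  fin_cases i <;> fin_cases j <;> simp

theorem tr_T_pow_mul (k : ℕ) (g : SL2) : tr (T ^ k * g) = tr g + k * g.1 1 0 := by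
  unfold tr
  rw [T_pow_mul_val]
  simp
  ring

theorem sgn_tr {s g : SL2} (hs : s = 1 ∨ s = -1) : |tr (s * g)| = |tr g| := by
  rcases hs with rfl | rfl
  · rw [one_mul]
  · have : (-1 : SL2) * g = -g := by simp
    rw [this, tr_neg, abs_neg]

theorem sgn_one {s g : SL2} (hs : s = 1 ∨ s = -1) (h : s * g = 1 ∨ s * g = -1) :
    g = 1 ∨ g = -1 := by
  rcases hs with rfl | rfl
  · rwa [one_mul] at h
  · have : (-1 : SL2) * g = -g := by simp
    rw [this] at h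
    rcases h with h | h
    · right; rw [← h]; simp
    · left; exact neg_injective h

/-- One twist. -/
theorem one_twist {k : ℕ} (hk : 2 ≤ k) {s γ : SL2} (hs : s = 1 ∨ s = -1)
    (hγ : ∃ h : SL2, γ = h * a * h⁻¹) (hf : IsOfFinOrder (s * (T ^ k * γ))) :
    ∃ j : ℤ, T ^ j * γ * (T ^ j)⁻¹ = b := by
  obtain ⟨h, rfl⟩ := hγ
  have hdet := h.det_coe
  rw [Matrix.det_fin_two] at hdet
  have htr : tr (T ^ k * (h * a * h⁻¹)) = 2 - k * (h.1 1 0) ^ 2 := by
    rw [tr_T_pow_mul, tr_conj, twist_val]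
    have : tr a = 2 := by decide
    rw [this]; simp; ring
  have hv : (h.1 1 0) ^ 2 = 1 := by
    rcases fin_tr hf with h1 | h1
    · rw [sgn_tr hs, htr] at h1
      have h2 := abs_le.1 h1
      have hk' : (2 : ℤ) ≤ k := by exact_mod_cast hk
      by_contra hne
      have h3 : 0 ≤ (h.1 1 0) ^ 2 := sq_nonneg _
      have h4 : (h.1 1 0) ^ 2 = 0 ∨ 2 ≤ (h.1 1 0) ^ 2 := by omega
      rcases h4 with h4 | h4
      · rw [h4] at h2; omega
      · nlinarith
    · exfalso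
      have h2 := sgn_one hs h1
      have h3 : (T ^ k * (h * a * h⁻¹)).1 1 0 = 0 := by
        rcases h2 with h2 | h2 <;> rw [h2] <;> decide
      rw [T_pow_mul_val, twist_val] at h3
      simp at h3
      have h4 : (T ^ k * (h * a * h⁻¹)).1 0 1 = 0 := by
        rcases h2 with h2 | h2 <;> rw [h2] <;> decide
      rw [T_pow_mul_val, twist_val] at h4
      simp [h3] at h4
      rw [h3, mul_zero, sub_zero] at hdet
      nlinarith [sq_nonneg (h.1 0 0)]
  refine ⟨-(h.1 0 0 * h.1 1 0), ?_⟩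
  set j := -(h.1 0 0 * h.1 1 0) with hj
  have e1 : T ^ j * (h * a * h⁻¹) * (T ^ j)⁻¹ = (T ^ j * h) * a * (T ^ j * h)⁻¹ := by group
  rw [e1]
  apply Subtype.ext
  rw [twist_val, b_val]
  have e2 : (T ^ j * h).1 = (T ^ j).1 * h.1 := rfl
  have e00 : (T ^ j * h).1 0 0 = 0 := by
    rw [e2, coe_T_zpow, Matrix.mul_apply, Fin.sum_univ_two]
    simp [hj]
    linear_combination (-(h.1 0 0)) * hv
  have e10 : (T ^ j * h).1 1 0 = h.1 1 0 := by
    rw [e2, coe_T_zpow, Matrix.mul_apply, Fin.sum_univ_two]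
    simp
  rw [e00, e10, hv]
  ext i j
  fin_cases i <;> fin_cases j <;> simp

theorem sT_comm {s : SL2} (hs : s = 1 ∨ s = -1) (k : ℕ) (j : ℤ) :
    T ^ j * (s * T ^ k) * (T ^ j)⁻¹ = s * T ^ k := by
  have h1 : T ^ j * T ^ k * (T ^ j)⁻¹ = T ^ k := by
    rw [← zpow_natCast, ← zpow_add, ← zpow_neg, ← zpow_add]
    congr 1; ring
  rcases hs with rfl | rfl
  · simpa using h1
  · simp only [neg_mul, one_mul, mul_neg]
    rw [h1]

/-- Normal form with one twist. -/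
theorem norm_one {k : ℕ} (hk : 2 ≤ k) {s : SL2} (hs : s = 1 ∨ s = -1) {B : SL2} {t : List SL2}
    (ht : ∀ g ∈ t, ∃ h : SL2, g = h * a * h⁻¹) (hl : t.length = 1) (hB : IsOfFinOrder B)
    (h1 : (s * T ^ k) * t.prod * B = 1) :
    Eqv (tup (s * T ^ k) t B) (tup (s * T ^ k) [b] (s * T ^ k * b)⁻¹) := by
  obtain ⟨γ, rfl⟩ := List.length_eq_one_iff.1 hl
  rw [List.prod_singleton] at h1
  have hBi : s * T ^ k * γ = B⁻¹ := eq_inv_of_mul_eq_one_left h1
  have hf : IsOfFinOrder (s * (T ^ k * γ)) := by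
    rw [← mul_assoc, hBi]; exact hB.inv
  obtain ⟨j, hj⟩ := one_twist hk hs (ht γ (by simp)) hf
  refine (Eqv.conj (T ^ j) _).trans ?_
  rw [cL_tup, sT_comm hs]
  simp only [List.map_cons, List.map_nil]
  rw [hj]
  have : T ^ j * B * (T ^ j)⁻¹ = (s * T ^ k * b)⁻¹ := by
    have h2 : B = (s * T ^ k * γ)⁻¹ := by rw [hBi, inv_inv]
    rw [h2, ← hj]
    have h3 := sT_comm hs k j
    have h4 : s * T ^ k * (T ^ j * γ * (T ^ j)⁻¹) = T ^ j * (s * T ^ k * γ) * (T ^ j)⁻¹ := by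
      conv_lhs => rw [← h3]
      group
    rw [h4]; group
  rw [this]
  exact Eqv.refl _

/-- The lower left entry of the conjugates of `y²`. -/
theorem y2_neg (g : SL2) : (g * y ^ 2 * g⁻¹).1 1 0 < 0 := by
  have h1 : (g * y ^ 2 * g⁻¹).1 = g.1 * (y ^ 2).1 * (g⁻¹).1 := rfl
  have h2 : (y ^ 2).1 = !![-1, 1; -1, 0] := by decide
  have h3 : g.1 = !![g.1 0 0, g.1 0 1; g.1 1 0, g.1 1 1] := Matrix.eta_fin_two g.1
  have hdet := g.det_coe
  rw [Matrix.det_fin_two] at hdet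
  have h4 : (g * y ^ 2 * g⁻¹).1 1 0 =
      -(g.1 1 0 ^ 2 + g.1 1 0 * g.1 1 1 + g.1 1 1 ^ 2) := by
    rw [h1, h2, inv_val]
    conv_lhs => rw [h3, Matrix.mul_fin_two, Matrix.mul_fin_two]
    simp
    ring
  rw [h4]
  have h5 : g.1 1 0 ≠ 0 ∨ g.1 1 1 ≠ 0 := by
    by_contra hcon
    push Not at hcon
    rw [hcon.1, hcon.2] at hdet
    simp at hdet
  rcases h5 with h5 | h5
  · have := sq_pos_of_ne_zero (a := g.1 1 0) h5
    nlinarith [sq_nonneg (g.1 1 0 + 2 * g.1 1 1), sq_nonneg (g.1 1 0)]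
  · have := sq_pos_of_ne_zero (a := g.1 1 1) h5
    nlinarith [sq_nonneg (2 * g.1 1 0 + g.1 1 1), sq_nonneg (g.1 1 1)]

theorem tr_two (h k : SL2) : tr ((h * a * h⁻¹) * (k * a * k⁻¹)) ≤ 2 := by
  have h1 : ((h * a * h⁻¹) * (k * a * k⁻¹)).1 = (h * a * h⁻¹).1 * (k * a * k⁻¹).1 := rfl
  have h2 : tr ((h * a * h⁻¹) * (k * a * k⁻¹)) =
      2 - (h.1 0 0 * k.1 1 0 - h.1 1 0 * k.1 0 0) ^ 2 := by
    unfold tr
    rw [h1, twist_val, twist_val, Matrix.mul_fin_two]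
    simp
    ring
  rw [h2]
  nlinarith [sq_nonneg (h.1 0 0 * k.1 1 0 - h.1 1 0 * k.1 0 0)]

/-- Normal form with two twists. -/
theorem norm_two {B : SL2} {t : List SL2}
    (ht : ∀ g ∈ t, ∃ h : SL2, g = h * a * h⁻¹) (hl : t.length = 2)
    (hB : ∃ g : SL2, B = g * y ^ 4 * g⁻¹) (h1 : T ^ 2 * t.prod * B = 1) :
    Eqv (tup (T ^ 2) t B) ((.zero, T ^ 2) :: (cL T⁻¹ (DD 1) ++ [(.inf, (y ^ 2)⁻¹)])) := by
  obtain ⟨g, rfl⟩ := hB
  -- the element `z`
  have hz : T ^ 2 * t.prod = g * y ^ 2 * g⁻¹ := by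
    have h2 := eq_inv_of_mul_eq_one_left h1
    rw [h2]
    have h3 : (y ^ 4)⁻¹ = y ^ 2 := by decide
    have h4 : (g * y ^ 4 * g⁻¹)⁻¹ = g * (y ^ 4)⁻¹ * g⁻¹ := by group
    rw [h4, h3]
  set z := g * y ^ 2 * g⁻¹ with hzdef
  have hzneg : z.1 1 0 < 0 := y2_neg g
  have hztr : tr z = -1 := by
    rw [hzdef, tr_conj]; decide
  have hle : tr t.prod ≤ 2 := by
    obtain ⟨γ₁, γ₂, rfl⟩ := List.length_eq_two.1 hl
    obtain ⟨h, hh⟩ := ht γ₁ (by simp)
    obtain ⟨k, hk⟩ := ht γ₂ (by simp)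
    have : [γ₁, γ₂].prod = (h * a * h⁻¹) * (k * a * k⁻¹) := by simp [hh, hk]
    rw [this]; exact tr_two h k
  have hz10 : z.1 1 0 = t.prod.1 1 0 := by
    rw [← hz, T_pow_mul_val]; simp
  have htr2 : tr z = tr t.prod + 2 * t.prod.1 1 0 := by
    rw [← hz, tr_T_pow_mul]; norm_num
  have hm1 : z.1 1 0 = -1 := by
    rw [hztr, ← hz10] at htr2
    omega
  -- conjugation
  set j : ℤ := z.1 0 0 + 1 with hj
  have hzj : T ^ j * z * (T ^ j)⁻¹ = y ^ 2 := by
    have h5 := conj_a_zpow j z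
    rw [a_eq_T] at h5
    have h6 : z.1 1 1 = -1 - z.1 0 0 := by
      unfold tr at hztr; linarith
    have hdet := z.det_coe
    rw [Matrix.det_fin_two, hm1, h6] at hdet
    apply Subtype.ext
    rw [h5, hm1, h6]
    have h2 : (y ^ 2).1 = !![-1, 1; -1, 0] := by decide
    rw [h2]
    ext i j'
    fin_cases i <;> fin_cases j' <;> simp [hj]
    · linear_combination (1 : ℤ) * hdet
    · ring
  refine (Eqv.conj (T ^ j) _).trans ?_
  rw [cL_tup]
  have hA : T ^ j * T ^ 2 * (T ^ j)⁻¹ = T ^ 2 := by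
    have := sT_comm (s := 1) (Or.inl rfl) 2 j
    simpa using this
  have hBj : T ^ j * (g * y ^ 4 * g⁻¹) * (T ^ j)⁻¹ = (y ^ 2)⁻¹ := by
    rw [← hzj, hzdef]
    have h3 : y ^ 4 = (y ^ 2)⁻¹ := by decide
    rw [h3]; group
  rw [hA, hBj]
  set u := t.map fun h => T ^ j * h * (T ^ j)⁻¹ with hu
  have hut : ∀ v ∈ u, ∃ h : SL2, v = h * a * h⁻¹ := twist_conj ht (T ^ j)
  have hup : u.prod = T ^ j * t.prod * (T ^ j)⁻¹ := by
    have h7 : ∀ l : List SL2, (l.map fun h => T ^ j * h * (T ^ j)⁻¹).prod =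
        T ^ j * l.prod * (T ^ j)⁻¹ := by
      intro l
      induction l with
      | nil => simp
      | cons v l ih => simp [ih]
    exact h7 t
  have hup2 : u.prod = T⁻¹ * y * T := by
    have h8 : T ^ 2 * u.prod = y ^ 2 := by
      rw [hup, ← hzj, ← hz]
      conv_lhs => rw [← hA]
      group
    have h9 : u.prod = (T ^ 2)⁻¹ * y ^ 2 := by rw [← h8]; group
    rw [h9]
    apply Subtype.ext; decide
  -- back to the base
  set w := u.map fun h => T * h * T⁻¹ with hw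
  have hwt : ∀ v ∈ w, ∃ h : SL2, v = h * a * h⁻¹ := twist_conj hut T
  have hwp : w.prod = y := by
    have h7 : ∀ l : List SL2, (l.map fun h => T * h * T⁻¹).prod = T * l.prod * T⁻¹ := by
      intro l
      induction l with
      | nil => simp
      | cons v l ih => simp [ih]
    rw [hw, h7, hup2]; group
  obtain ⟨n, hn, hH⟩ := ordinary w hwt (e := 1) (by rw [hwp, Yp_one]; rfl)
  have hn1 : n = 1 := by
    have : w.length = 2 := by rw [hw, hu]; simp [hl]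
    omega
  subst hn1
  have hH2 := hH.conj T⁻¹
  have hH3 : cL T⁻¹ (w.map fun g => (Lab.nod, g)) = u.map fun g => (Lab.nod, g) := by
    rw [hw]
    unfold cL
    rw [List.map_map, List.map_map]
    apply List.map_congr_left
    intro v _
    simp only [Function.comp_apply]
    congr 1
    group
  rw [hH3] at hH2
  unfold tup
  exact Hur.eqv (Hur.cons _ (Hur.right _ hH2))

end Run7.h371.G
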