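import Mathlib
import Pool.Agent.Run7.h371.G.Long
import Pool.Agent.Run7.h371.Invariants

/-!
# The classification of the quotient monodromy of base-rotating actions
-/

set_option autoImplicit false

namespace Run7.h371.G

open Run7.h371 ModularGroup

/-- Long parabolic first entry. -/
theorem par_unique {k : ℕ} (hk : 2 ≤ k) {s A B A' B' : SL2} {t t' : List SL2}
    (hs : s = 1 ∨ s = -1) (hA : IsConj (s * T ^ k) A) (hAA : IsConj A A')
    (hB : IsOfFinOrder B) (hBB : IsConj B B')
    (ht : ∀ g ∈ t, ∃ h : SL2, g = h * a * h⁻¹) (ht' : ∀ g ∈ t', ∃ h : SL2, g = h * a * h⁻¹)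
    (hl : t.length = t'.length) (h1 : A * t.prod * B = 1) (h1' : A' * t'.prod * B' = 1)
    (hcase : t.length = 1 ∨ (t.length = 2 ∧ k = 2 ∧ s = 1 ∧ ∃ g : SL2, B = g * y ^ 4 * g⁻¹)) :
    Eqv (tup A t B) (tup A' t' B') := by
  -- reduction to the base
  have key : ∀ {A B : SL2} {t : List SL2}, IsConj (s * T ^ k) A → A * t.prod * B = 1 →
      ∃ g : SL2, Eqv (tup A t B) (tup (s * T ^ k) (t.map fun h => g * h * g⁻¹) (g * B * g⁻¹)) ∧
        (s * T ^ k) * (t.map fun h => g * h * g⁻¹).prod * (g * B * g⁻¹) = 1 := by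
    intro A B t hA h1
    obtain ⟨u, rfl⟩ := isConj_iff.1 hA
    refine ⟨u⁻¹, ?_, ?_⟩
    · refine (Eqv.conj u⁻¹ _).trans ?_
      rw [cL_tup]
      have : u⁻¹ * (u * (s * T ^ k) * u⁻¹) * u⁻¹⁻¹ = s * T ^ k := by group
      rw [this]
      exact Eqv.refl _
    · have h2 := Eqv.conj u⁻¹ (tup (u * (s * T ^ k) * u⁻¹) t B)
      have h3 := (Eqv.pr_one h2).1 (by rw [pr_tup]; exact h1)
      rw [cL_tup, pr_tup] at h3
      have : u⁻¹ * (u * (s * T ^ k) * u⁻¹) * u⁻¹⁻¹ = s * T ^ k := by group
      rw [this] at h3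
      exact h3
  obtain ⟨g, hg, hg1⟩ := key hA h1
  obtain ⟨g', hg', hg1'⟩ := key (hA.trans hAA) h1'
  refine hg.trans (Eqv.trans ?_ hg'.symm)
  have hB1 : IsOfFinOrder (g * B * g⁻¹) := fin_conj (isConj_iff.2 ⟨g, rfl⟩) hB
  have hB1' : IsOfFinOrder (g' * B' * g'⁻¹) :=
    fin_conj (hBB.trans (isConj_iff.2 ⟨g', rfl⟩)) hB
  rcases hcase with hc | ⟨hc, rfl, rfl, v, hv⟩
  · exact (norm_one hk hs (twist_conj ht g) (by simpa using hc) hB1 hg1).trans
      (norm_one hk hs (twist_conj ht' g') (by simpa [← hl] using hc) hB1' hg1').symm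
  · rw [one_mul] at hg1 hg1' ⊢
    obtain ⟨w, hw⟩ := isConj_iff.1 hBB
    exact (norm_two (twist_conj ht g) (by simpa using hc) ⟨g * v, by rw [hv]; group⟩ hg1).trans
      (norm_two (twist_conj ht' g') (by simpa [← hl] using hc)
        ⟨g' * (w * v), by rw [← hw, hv]; group⟩ hg1').symm

/-- Exchange of the two special labels. -/
def flip : Lab → Lab
  | .nod => .nod
  | .zero => .inf
  | .inf => .zero

theorem flip_eqv {l m : List (Lab × SL2)} (h : Eqv l m) :
    Eqv (l.map fun p => (flip p.1, p.2)) (m.map fun p => (flip p.1, p.2)) := by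
  induction h with
  | rel u v h =>
    cases h with
    | exch l m p q =>
      have := Move.exch (l.map fun p => (flip p.1, p.2)) (m.map fun p => (flip p.1, p.2))
        ((flip p.1, p.2) : Lab × SL2) (flip q.1, q.2)
      have h2 : Eqv _ _ := Relation.EqvGen.rel _ _ this
      simpa using h2
    | conj g l =>
      have := Move.conj g (u.map fun p : Lab × SL2 => (flip p.1, p.2))
      have h2 := Relation.EqvGen.rel _ _ this
      rw [List.map_map] at h2 ⊢
      exact h2
  | refl u => exact Eqv.refl _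
  | symm u v _ ih => exact ih.symm
  | trans u v w _ _ ih1 ih2 => exact ih1.trans ih2

theorem flip_tup (A : SL2) (t : List SL2) (B : SL2) :
    Eqv (tup A t B) ((tup B t (t.prod⁻¹ * A * t.prod)).map fun p => (flip p.1, p.2)) := by
  have h1 : Eqv (tup A t B)
      ((.inf, B) :: (.zero, A) :: t.map (fun g => ((Lab.nod, g) : Lab × SL2))) := by
    have := Eqv.rot ((.zero, A) :: t.map (fun g => ((Lab.nod, g) : Lab × SL2))) (.inf, B)
    unfold tup
    simpa using this
  refine h1.trans ?_
  have h2 := (Hur.passR (.zero, A) (t.map (fun g => ((Lab.nod, g) : Lab × SL2)))).cons (.inf, B)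
  refine h2.eqv.trans ?_
  have hp : pr (t.map (fun g => ((Lab.nod, g) : Lab × SL2))) = t.prod := by
    unfold pr
    rw [List.map_map]
    congr 1
    conv_rhs => rw [← List.map_id t]
    rfl
  rw [hp]
  unfold tup
  simp only [List.map_cons, List.map_append, List.map_map, List.map_nil]
  exact Eqv.refl _

theorem flip_unique {A B A' B' : SL2} {t t' : List SL2}
    (h : ∀ C C' : SL2, IsConj A C → IsConj A' C' → B * t.prod * C = 1 → B' * t'.prod * C' = 1 →
      Eqv (tup B t C) (tup B' t' C'))
    (h1 : A * t.prod * B = 1) (h1' : A' * t'.prod * B' = 1) :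
    Eqv (tup A t B) (tup A' t' B') := by
  refine (flip_tup A t B).trans (Eqv.trans ?_ (flip_tup A' t' B').symm)
  apply flip_eqv
  apply h
  · exact isConj_iff.2 ⟨t.prod⁻¹, by rw [inv_inv]⟩
  · exact isConj_iff.2 ⟨t'.prod⁻¹, by rw [inv_inv]⟩
  · have : B = (A * t.prod)⁻¹ := (inv_eq_of_mul_eq_one_right h1).symm
    rw [this]; group
  · have : B' = (A' * t'.prod)⁻¹ := (inv_eq_of_mul_eq_one_right h1').symm
    rw [this]; group

/-- The numerical constraints for a long parabolic entry. -/
theorem numerics {p : ℕ} (hp : Odd p) (h5 : 5 ≤ p) {A B : SL2} {t : List SL2} {eA eB k : ℕ}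
    {s : SL2} (hk : 2 ≤ k)
    (hs : (s = 1 ∧ eA = p * k) ∨ (s = -1 ∧ eA = p * k + 6))
    (hA : IsConj (s * T ^ k) A) (hB : Kodaira (B ^ p) eB)
    (ht : ∀ g ∈ t, ∃ h : SL2, g = h * a * h⁻¹)
    (h1 : A * t.prod * B = 1) (he : eA + eB + p * t.length = 24) :
    IsOfFinOrder B ∧
      (t.length = 1 ∨ (t.length = 2 ∧ k = 2 ∧ s = 1 ∧ ∃ g : SL2, B = g * y ^ 4 * g⁻¹)) := by
  have hAinf : ¬ IsOfFinOrder A := by
    intro hf
    have hTf : IsOfFinOrder (s * T ^ k) := fin_conj hA.symm hf
    have hs' : s = 1 ∨ s = -1 := by tauto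
    rcases fin_tr hTf with h | h
    · rw [sgn_tr hs', tr_T_pow] at h; norm_num at h
    · have h2 := sgn_one hs' h
      have h3 : (T ^ k).1 0 1 = 0 := by
        rcases h2 with h2 | h2 <;> rw [h2] <;> decide
      rw [T_pow_val] at h3
      simp at h3
      omega
  have hchi : chi A + t.length + chi B = 0 := by
    rw [← chi_prod t ht, ← chi_mul, ← chi_mul, h1, chi_one]
  have hpk : ∀ n : ℕ, p * n ≤ 24 → n ≤ 4 := by
    intro n hn
    by_contra hcon
    push Not at hcon
    have : 5 * 5 ≤ p * n := Nat.mul_le_mul h5 hcon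
    omega
  have hm0 : t.length ≠ 0 := by
    intro h0
    have htn : t = [] := List.length_eq_zero_iff.1 h0
    subst htn
    rw [List.prod_nil, mul_one] at h1
    -- B is the inverse of A
    have hBA : B = A⁻¹ := (inv_eq_of_mul_eq_one_right h1).symm
    rcases root hp hB with hf | ⟨l, hl, hcase⟩
    · apply hAinf
      have := hf.inv
      rw [hBA, inv_inv] at this
      exact this
    · have hpl : p * (k + l) ≤ 24 := by
        rw [Nat.mul_add]
        rcases hs with ⟨_, h⟩ | ⟨_, h⟩ <;> rcases hcase with ⟨_, h'⟩ | ⟨_, h'⟩ <;> omega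
      have hkl := hpk _ hpl
      rw [List.length_nil] at hchi
      have hcA : chi A = k ∨ chi A = k + 6 := by
        rcases hs with ⟨h, _⟩ | ⟨h, _⟩
        · left; rw [← chi_isConj hA, h, one_mul, chi_T_pow]
        · right; rw [← chi_isConj hA, h, neg_one_mul, chi_neg, chi_T_pow]
      have hcB : chi B = l ∨ chi B = l + 6 := by
        rcases hcase with ⟨h, _⟩ | ⟨h, _⟩
        · left; rw [← chi_isConj h, chi_T_pow]
        · right; rw [← chi_isConj h, chi_neg, chi_T_pow]
      have hk2 : k ≤ 4 := by omega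
      have hl2 : l ≤ 4 := by omega
      rcases hcA with h | h <;> rcases hcB with h' | h' <;> rw [h, h'] at hchi <;>
        interval_cases k <;> interval_cases l <;> first | omega | (revert hchi; decide)
  rcases root hp hB with hf | ⟨l, hl, hcase⟩
  · refine ⟨hf, ?_⟩
    have hpl : p * (k + t.length) ≤ 24 := by
      rw [Nat.mul_add]
      rcases hs with ⟨_, h⟩ | ⟨_, h⟩ <;> omega
    have hkl := hpk _ hpl
    by_cases hm1 : t.length = 1
    · exact Or.inl hm1
    · right
      have hm2 : t.length = 2 ∧ k = 2 := by omega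
      have hs1 : s = 1 := by
        rcases hs with ⟨h, _⟩ | ⟨_, h⟩
        · exact h
        · exfalso
          rw [hm2.2] at h
          rw [hm2.1] at he
          omega
      refine ⟨hm2.1, hm2.2, hs1, ?_⟩
      have hcB : chi B = 8 := by
        have hcA : chi A = 2 := by
          rw [← chi_isConj hA, hs1, one_mul, chi_T_pow, hm2.2]; rfl
        rw [hcA, hm2.1] at hchi
        have key : ∀ c : ZMod 12, 2 + ((2 : ℕ) : ZMod 12) + c = 0 → c = 8 := by decide
        exact key _ hchi
      rcases torsion B hf with ⟨g, i, hi⟩ | ⟨g, e, hi⟩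
      · refine ⟨g, ?_⟩
        rw [hi, chi_conj, chi_pow, chi_y] at hcB
        have h6 : y ^ 6 = 1 := by decide
        have hi6 : y ^ i = y ^ (i % 6) := by
          conv_lhs => rw [← Nat.mod_add_div i 6, pow_add, pow_mul, h6, one_pow, mul_one]
        have hi4 : i % 6 = 4 := by
          have h7 : ((i * 2 : ℕ) : ZMod 12) = ((8 : ℕ) : ZMod 12) := by
            push_cast; exact hcB
          have h8 := (ZMod.natCast_eq_natCast_iff _ _ 12).1 h7
          have h9 : (i * 2) % 12 = 8 % 12 := h8
          omega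
        rw [hi, hi6, hi4]
      · exfalso
        rw [hi, chi_conj] at hcB
        cases e
        · revert hcB; decide
        · revert hcB; decide
  · exfalso
    have hpl : p * (k + l + t.length) ≤ 24 := by
      rw [Nat.mul_add, Nat.mul_add]
      rcases hs with ⟨_, h⟩ | ⟨_, h⟩ <;> rcases hcase with ⟨_, h'⟩ | ⟨_, h'⟩ <;> omega
    have hkl := hpk _ hpl
    have hcA : chi A = k ∨ chi A = k + 6 := by
      rcases hs with ⟨h, _⟩ | ⟨h, _⟩
      · left; rw [← chi_isConj hA, h, one_mul, chi_T_pow]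
      · right; rw [← chi_isConj hA, h, neg_one_mul, chi_neg, chi_T_pow]
    have hcB : chi B = l ∨ chi B = l + 6 := by
      rcases hcase with ⟨h, _⟩ | ⟨h, _⟩
      · left; rw [← chi_isConj h, chi_T_pow]
      · right; rw [← chi_isConj h, chi_neg, chi_T_pow]
    have hk2 : k ≤ 4 := by omega
    have hl2 : l ≤ 4 := by omega
    have hm2 : t.length ≤ 4 := by omega
    generalize t.length = n at *
    rcases hcA with h | h <;> rcases hcB with h' | h' <;> rw [h, h'] at hchi <;>
      interval_cases k <;> interval_cases l <;> interval_cases n <;>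
        first | omega | (revert hchi; decide)

theorem Kodaira.conj {M N : SL2} {e : ℕ} (h : Kodaira M e) (hc : IsConj M N) : Kodaira N e := by
  cases h with
  | I k h => exact .I _ (h.trans hc)
  | Istar k h => exact .Istar _ (h.trans hc)
  | II h => exact .II (h.trans hc)
  | III h => exact .III (h.trans hc)
  | IV h => exact .IV (h.trans hc)
  | IVstar h => exact .IVstar (h.trans hc)
  | IIIstar h => exact .IIIstar (h.trans hc)
  | IIstar h => exact .IIstar (h.trans hc)

/-- The uniqueness half of the classification. -/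
theorem rot_unique {p : ℕ} (hp : Odd p) (h5 : 5 ≤ p) (D D' : RotDatum p)
    (hA : IsConj D.A D'.A) (hB : IsConj D.B D'.B) : Eqv D.tuple D'.tuple := by
  have ht := twist_form D.twist
  have ht' := twist_form D'.twist
  have heA : D.eA = D'.eA := by
    have h : Kodaira (D'.A ^ p) D.eA := by
      have hc : IsConj (D.A ^ p) (D'.A ^ p) := by
        obtain ⟨u, hu⟩ := isConj_iff.1 hA
        refine isConj_iff.2 ⟨u, ?_⟩
        rw [← hu, conj_pow]
      exact D.kodaira_A.conj hc
    exact h.unique D'.kodaira_A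
  have heB : D.eB = D'.eB := by
    have h : Kodaira (D'.B ^ p) D.eB := by
      have hc : IsConj (D.B ^ p) (D'.B ^ p) := by
        obtain ⟨u, hu⟩ := isConj_iff.1 hB
        refine isConj_iff.2 ⟨u, ?_⟩
        rw [← hu, conj_pow]
      exact D.kodaira_B.conj hc
    exact h.unique D'.kodaira_B
  have hlen : D.t.length = D'.t.length := by
    have h1 := D.euler
    have h2 := D'.euler
    rw [heA, heB] at h1
    have h3 : p * D.t.length = p * D'.t.length := by omega
    exact Nat.eq_of_mul_eq_mul_left (by omega) h3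
  have short : ∀ {A : SL2} {e : ℕ}, Kodaira (A ^ p) e →
      (IsOfFinOrder A ∨ IsConj a A ∨ IsConj (-a) A) ∨
      ∃ k : ℕ, 2 ≤ k ∧ ∃ s : SL2, ((s = 1 ∧ e = p * k) ∨ (s = -1 ∧ e = p * k + 6)) ∧
        IsConj (s * T ^ k) A := by
    intro A e h
    rcases root hp h with h | ⟨k, hk, hcase⟩
    · exact Or.inl (Or.inl h)
    · by_cases hk1 : k = 1
      · subst hk1
        left; right
        rw [pow_one] at hcase
        rcases hcase with ⟨h, _⟩ | ⟨h, _⟩
        · exact Or.inl h
        · exact Or.inr h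
      · right
        refine ⟨k, by omega, ?_⟩
        rcases hcase with ⟨h, h'⟩ | ⟨h, h'⟩
        · exact ⟨1, Or.inl ⟨rfl, h'⟩, by rw [one_mul]; exact h⟩
        · exact ⟨-1, Or.inr ⟨rfl, h'⟩, by rw [neg_one_mul]; exact h⟩
  rcases short D.kodaira_A with hsA | ⟨k, hk, s, hs, hkA⟩
  · rcases short D.kodaira_B with hsB | ⟨k, hk, s, hs, hkB⟩
    · exact unique2 hsA hsB hA hB ht ht' hlen D.closed D'.closed
    · -- flip
      refine flip_unique ?_ D.closed D'.closed
      intro C C' hC hC' h1 h1'
      have hKC : Kodaira (C ^ p) D.eA := by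
        have hc : IsConj (D.A ^ p) (C ^ p) := by
          obtain ⟨u, hu⟩ := isConj_iff.1 hC
          refine isConj_iff.2 ⟨u, ?_⟩
          rw [← hu, conj_pow]
        exact D.kodaira_A.conj hc
      obtain ⟨hf, hc⟩ := numerics hp h5 hk hs hkB hKC ht h1
        (by have := D.euler; omega)
      exact par_unique hk (by tauto) hkB hB hf ((hC.symm.trans hA).trans hC') ht ht' hlen h1 h1' hc
  · obtain ⟨hf, hc⟩ := numerics hp h5 hk hs hkA D.kodaira_B ht D.closed D.euler
    exact par_unique hk (by tauto) hkA hA hf hB ht ht' hlen D.closed D'.closed hc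

/-- The classification. -/
theorem rot_classify {p : ℕ} (hp : Odd p) (h5 : 5 ≤ p) (D D' : RotDatum p) :
    Eqv D.tuple D'.tuple ↔ IsConj D.A D'.A ∧ IsConj D.B D'.B := by
  constructor
  · intro h
    refine ⟨?_, ?_⟩
    · obtain ⟨p, hp, h1, h2⟩ := (class_inv h Lab.zero D.A).1
        ⟨(Lab.zero, D.A), by simp [RotDatum.tuple], rfl, IsConj.refl _⟩
      simp only [RotDatum.tuple, List.mem_cons, List.mem_append, List.mem_map, List.not_mem_nil,
        or_false] at hp
      rcases hp with rfl | ⟨_, _, rfl⟩ | rfl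
      · exact h2
      · cases h1
      · cases h1
    · obtain ⟨p, hp, h1, h2⟩ := (class_inv h Lab.inf D.B).1
        ⟨(Lab.inf, D.B), by simp [RotDatum.tuple], rfl, IsConj.refl _⟩
      simp only [RotDatum.tuple, List.mem_cons, List.mem_append, List.mem_map, List.not_mem_nil,
        or_false] at hp
      rcases hp with rfl | ⟨_, _, rfl⟩ | rfl
      · cases h1
      · cases h1
      · exact h2
  · rintro ⟨h1, h2⟩
    exact rot_unique hp h5 D D' h1 h2

end Run7.h371.G
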