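import Mathlib
import Pool.Agent.Run7.h371.Moves

/-!
# Monodromy data with two special entries
-/

set_option autoImplicit false

open ModularGroup

namespace Run7.h371.G

/-- The monodromy datum of an elliptic fibration over the sphere with two special fibres and any
number of nodal fibres: two elements `A`, `B` of `SL(2, ℤ)`, each of finite order or conjugate to
plus or minus `T = 1 1; 0 1`, and a list `t` of right-handed Dehn twists (conjugates of `T`) such
that `A * t₁ * ⋯ * tₘ * B = 1`. -/
structure Datum where
  A : Matrix.SpecialLinearGroup (Fin 2) ℤ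
  B : Matrix.SpecialLinearGroup (Fin 2) ℤ
  t : List (Matrix.SpecialLinearGroup (Fin 2) ℤ)
  type_A : IsOfFinOrder A ∨ IsConj T A ∨ IsConj (-T) A
  type_B : IsOfFinOrder B ∨ IsConj T B ∨ IsConj (-T) B
  twist : ∀ g ∈ t, IsConj T g
  closed : A * t.prod * B = 1

/-- The labelled tuple `(zero, A), (nod, t₁), …, (nod, tₘ), (inf, B)`. -/
def Datum.tuple (D : Datum) : List (Lab × Matrix.SpecialLinearGroup (Fin 2) ℤ) :=
  (Lab.zero, D.A) :: (D.t.map (fun g => (Lab.nod, g)) ++ [(Lab.inf, D.B)])

end Run7.h371.G
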