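import Mathlib
import Pool.Agent.Run7.h371.G.Datum
import Pool.Agent.Run7.h371.G.Final

/-!
# The classification of data with two special entries
-/

set_option autoImplicit false

namespace Run7.h371.G

open Run7.h371

theorem classify (D D' : Datum) : Eqv D.tuple D'.tuple ↔
    IsConj D.A D'.A ∧ IsConj D.B D'.B ∧ D.t.length = D'.t.length := by
  constructor
  · intro h
    refine ⟨?_, ?_, ?_⟩
    · obtain ⟨p, hp, h1, h2⟩ := (class_inv h Lab.zero D.A).1
        ⟨(Lab.zero, D.A), by simp [Datum.tuple], rfl, IsConj.refl _⟩
      simp only [Datum.tuple, List.mem_cons, List.mem_append, List.mem_map, List.not_mem_nil,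
        or_false] at hp
      rcases hp with rfl | ⟨_, _, rfl⟩ | rfl
      · exact h2
      · cases h1
      · cases h1
    · obtain ⟨p, hp, h1, h2⟩ := (class_inv h Lab.inf D.B).1
        ⟨(Lab.inf, D.B), by simp [Datum.tuple], rfl, IsConj.refl _⟩
      simp only [Datum.tuple, List.mem_cons, List.mem_append, List.mem_map, List.not_mem_nil,
        or_false] at hp
      rcases hp with rfl | ⟨_, _, rfl⟩ | rfl
      · cases h1
      · cases h1
      · exact h2
    · have := h.length_eq
      simp [Datum.tuple] at this
      exact this
  · rintro ⟨h1, h2, h3⟩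
    exact unique2 D.type_A D.type_B h1 h2 (twist_form D.twist) (twist_form D'.twist) h3
      D.closed D'.closed

end Run7.h371.G
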